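import Pool.Agent.Work.MP_64e010_lc.Br.DelB

/-!
# Br/Avg (M-L): averaging over the transversals

`Trc n m c` is the set of the `T ⊆ range n` with `m` elements and `c(T) = range m` (so `c` is injective on `T`, `Finset.card_image_iff` / `Finset.injOn_of_card_image_eq`). `hN`: the colours `j < m` have `k j` positions (`fib n c j`), `hc`: every position `< n` has a colour `< m`.
`trc_card`: bijection with `Fintype.piFinset (fun j : Fin m => fib n c j)`: `T = image of f`. `trc_pair`: for `i + 1 < n`, `c i ≠ c (i+1)` the number of `T ∈ Trc n m c` which contain `i` and `i + 1`, times `k (c i) * k (c (i+1))`, is `∏ j < m, k j` (functions `f` with `f (c i) = i`, `f (c (i+1)) = i + 1`: replace the two factors `fib n c (c i)`,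
`fib n c (c (i+1))` of the product by singletons; `Finset.prod_update`-type or `Finset.mul_prod_erase` twice). `sum_dcost`: induction on `w` for all `c`: for the first letter, if `c i = c (i+1)` no `T` contains both (`c` is injective on `T`), otherwise `trc_pair`; `T ↦ sws i T` is a bijection from `Trc n m c` to
`Trc n m (c ∘ tr i)`, and `fib n (c ∘ tr i) j = sws i (fib n c j)`, so the hypotheses hold for `c ∘ tr i`. `exists_le`: pigeonhole (`Finset.exists_le_of_sum_le` or contradiction): the average of `dcost` over the `∏ k j > 0` transversals is `inter c w`.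
`intra_del`: induction on `w`, the positions `i, i+1` are both in `fib n c j` iff `c i = j` and `c (i+1) = j`. `inter_add_intra`: induction on `w`.
-/

set_option autoImplicit false

namespace Pool.Agent.Work.MP_64e010_lc

private theorem tr_lt {n i x : ℕ} (hi : i + 1 < n) : tr i x < n ↔ x < n := by
  rcases eq_or_ne x i with rfl | h1
  · rw [Equiv.swap_apply_left]
    omega
  · rcases eq_or_ne x (i + 1) with rfl | h2
    · rw [Equiv.swap_apply_right]
      omega
    · rw [Equiv.swap_apply_of_ne_of_ne h1 h2]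

private theorem fib_tr {n i : ℕ} (hi : i + 1 < n) (c : ℕ → ℕ) (j : ℕ) :
    fib n (c ∘ tr i) j = sws i (fib n c j) := by
  ext x
  rw [mem_sws]
  unfold fib
  rw [Finset.mem_filter, Finset.mem_filter, Finset.mem_range, Finset.mem_range, tr_lt hi]
  rfl

private theorem trc_gen {n m : ℕ} {c : ℕ → ℕ} (A : ℕ → Finset ℕ)
    (hA : ∀ j < m, A j ⊆ fib n c j) :
    ((Trc n m c).filter fun T => ∀ x ∈ T, x ∈ A (c x)).card =
      ∏ j ∈ Finset.range m, (A j).card := by
  classical
  have hAc : ∀ j < m, ∀ x ∈ A j, x < n ∧ c x = j := by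
    intro j hj x hx
    have := hA j hj hx
    unfold fib at this
    rw [Finset.mem_filter, Finset.mem_range] at this
    exact this
  have h1 : (Fintype.piFinset fun j : Fin m => A j).card = ∏ j ∈ Finset.range m, (A j).card := by
    rw [Fintype.card_piFinset, ← Fin.prod_univ_eq_prod_range (fun j => (A j).card)]
  rw [← h1]
  symm
  have hcf : ∀ f ∈ Fintype.piFinset fun j : Fin m => A j, ∀ j : Fin m, f j < n ∧ c (f j) = j := by
    intro f hf j
    exact hAc j j.2 (f j) (Fintype.mem_piFinset.1 hf j)
  refine Finset.card_bij (fun f _ => Finset.univ.image f) ?_ ?_ ?_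
  · intro f hf
    have hinj : Function.Injective f := by
      intro j j' h
      have h1 := (hcf f hf j).2
      have h2 := (hcf f hf j').2
      rw [h] at h1
      exact Fin.ext (h1.symm.trans h2)
    rw [Finset.mem_filter]
    constructor
    · unfold Trc
      rw [Finset.mem_filter, Finset.mem_powersetCard]
      refine ⟨⟨?_, ?_⟩, ?_⟩
      · intro x hx
        obtain ⟨j, -, rfl⟩ := Finset.mem_image.1 hx
        exact Finset.mem_range.2 (hcf f hf j).1
      · rw [Finset.card_image_of_injective _ hinj, Finset.card_univ, Fintype.card_fin]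
      · ext x
        rw [Finset.mem_image, Finset.mem_range]
        constructor
        · rintro ⟨y, hy, rfl⟩
          obtain ⟨j, -, rfl⟩ := Finset.mem_image.1 hy
          rw [(hcf f hf j).2]
          exact j.2
        · intro hx
          exact ⟨f ⟨x, hx⟩, Finset.mem_image_of_mem _ (Finset.mem_univ _), (hcf f hf ⟨x, hx⟩).2⟩
    · intro x hx
      obtain ⟨j, -, rfl⟩ := Finset.mem_image.1 hx
      rw [(hcf f hf j).2]
      exact Fintype.mem_piFinset.1 hf j
  · intro f hf f' hf' h
    funext j
    have h2 : f j ∈ Finset.univ.image f' := by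
      rw [← h]
      exact Finset.mem_image_of_mem _ (Finset.mem_univ _)
    obtain ⟨j', -, h3⟩ := Finset.mem_image.1 h2
    have h4 := (hcf f hf j).2
    have h5 := (hcf f' hf' j').2
    rw [h3] at h5
    have h6 : j' = j := Fin.ext (h5.symm.trans h4)
    rw [h6] at h3
    exact h3.symm
  · intro T hT
    rw [Finset.mem_filter] at hT
    obtain ⟨hT, hTA⟩ := hT
    unfold Trc at hT
    rw [Finset.mem_filter, Finset.mem_powersetCard] at hT
    obtain ⟨⟨hT1, hT2⟩, hT3⟩ := hT
    have hex : ∀ j : Fin m, ∃ x ∈ T, c x = j := by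
      intro j
      have : (j : ℕ) ∈ T.image c := by
        rw [hT3]
        exact Finset.mem_range.2 j.2
      obtain ⟨x, hx, hxj⟩ := Finset.mem_image.1 this
      exact ⟨x, hx, hxj⟩
    choose f hf1 hf2 using hex
    have hfF : f ∈ Fintype.piFinset fun j : Fin m => A j := by
      rw [Fintype.mem_piFinset]
      intro j
      have := hTA (f j) (hf1 j)
      rwa [hf2 j] at this
    refine ⟨f, hfF, ?_⟩
    have hinj : Function.Injective f := by
      intro j j' h
      have h1 := hf2 j
      have h2 := hf2 j'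
      rw [h] at h1
      exact Fin.ext (h1.symm.trans h2)
    refine Finset.eq_of_subset_of_card_le ?_ ?_
    · intro x hx
      obtain ⟨j, -, rfl⟩ := Finset.mem_image.1 hx
      exact hf1 j
    · rw [Finset.card_image_of_injective _ hinj, Finset.card_univ, Fintype.card_fin, hT2]

private theorem trc_inj {n m : ℕ} {c : ℕ → ℕ} {T : Finset ℕ} (hT : T ∈ Trc n m c) :
    Set.InjOn c T := by
  unfold Trc at hT
  rw [Finset.mem_filter, Finset.mem_powersetCard] at hT
  obtain ⟨⟨-, hT2⟩, hT3⟩ := hT
  refine Finset.card_image_iff.1 ?_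
  rw [hT3, hT2, Finset.card_range]

private theorem trc_sws {n m i : ℕ} (hi : i + 1 < n) {c : ℕ → ℕ} {T : Finset ℕ}
    (hT : T ∈ Trc n m c) : sws i T ∈ Trc n m (c ∘ tr i) := by
  unfold Trc at hT ⊢
  rw [Finset.mem_filter, Finset.mem_powersetCard] at hT ⊢
  obtain ⟨⟨hT1, hT2⟩, hT3⟩ := hT
  refine ⟨⟨sws_subset hi hT1, by rw [card_sws, hT2]⟩, ?_⟩
  rw [← hT3]
  ext x
  rw [Finset.mem_image, Finset.mem_image]
  constructor
  · rintro ⟨y, hy, rfl⟩
    exact ⟨tr i y, mem_sws.1 hy, rfl⟩
  · rintro ⟨y, hy, rfl⟩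
    refine ⟨tr i y, ?_, ?_⟩
    · rw [mem_sws, Equiv.swap_apply_self]
      exact hy
    · show c (tr i (tr i y)) = c y
      rw [Equiv.swap_apply_self]

theorem trc_card {n m : ℕ} {c k : ℕ → ℕ} (hc : ∀ x < n, c x < m)
    (hN : ∀ j < m, (fib n c j).card = k j) : (Trc n m c).card = ∏ j ∈ Finset.range m, k j := by
  have h := trc_gen (n := n) (m := m) (c := c) (fib n c) (fun j _ => Finset.Subset.refl _)
  rw [Finset.prod_congr rfl fun j hj => hN j (Finset.mem_range.1 hj)] at h
  rw [← h]
  congr 1
  symm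
  rw [Finset.filter_eq_self]
  intro T hT x hx
  have hT' := hT
  unfold Trc at hT'
  rw [Finset.mem_filter, Finset.mem_powersetCard] at hT'
  unfold fib
  rw [Finset.mem_filter]
  exact ⟨hT'.1.1 hx, rfl⟩

theorem trc_pair {n m i : ℕ} {c k : ℕ → ℕ} (hc : ∀ x < n, c x < m)
    (hN : ∀ j < m, (fib n c j).card = k j) (hi : i + 1 < n) (hne : c i ≠ c (i + 1)) :
    ((Trc n m c).filter fun T => i ∈ T ∧ i + 1 ∈ T).card * (k (c i) * k (c (i + 1))) =
      ∏ j ∈ Finset.range m, k j := by
  classical
  obtain ⟨A, hAd⟩ : ∃ A : ℕ → Finset ℕ, ∀ j, A j =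
      if j = c i then {i} else if j = c (i + 1) then {i + 1} else fib n c j := ⟨_, fun j => rfl⟩
  have hAi : A (c i) = {i} := by rw [hAd, if_pos rfl]
  have hAi1 : A (c (i + 1)) = {i + 1} := by rw [hAd, if_neg (Ne.symm hne), if_pos rfl]
  have hAo : ∀ j, j ≠ c i → j ≠ c (i + 1) → A j = fib n c j := by
    intro j h1 h2
    rw [hAd, if_neg h1, if_neg h2]
  have hiF : i ∈ fib n c (c i) := by
    unfold fib
    rw [Finset.mem_filter, Finset.mem_range]
    exact ⟨by omega, rfl⟩
  have hi1F : i + 1 ∈ fib n c (c (i + 1)) := by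
    unfold fib
    rw [Finset.mem_filter, Finset.mem_range]
    exact ⟨hi, rfl⟩
  have hA : ∀ j < m, A j ⊆ fib n c j := by
    intro j _
    rcases eq_or_ne j (c i) with rfl | h1
    · rw [hAi, Finset.singleton_subset_iff]
      exact hiF
    · rcases eq_or_ne j (c (i + 1)) with rfl | h2
      · rw [hAi1, Finset.singleton_subset_iff]
        exact hi1F
      · rw [hAo j h1 h2]
  have h := trc_gen (n := n) (m := m) (c := c) A hA
  have hfil : (Trc n m c).filter (fun T => ∀ x ∈ T, x ∈ A (c x)) =
      (Trc n m c).filter fun T => i ∈ T ∧ i + 1 ∈ T := by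
    refine Finset.filter_congr fun T hT => ?_
    have hinj := trc_inj hT
    have hT' := hT
    unfold Trc at hT'
    rw [Finset.mem_filter, Finset.mem_powersetCard] at hT'
    obtain ⟨⟨hT1, hT2⟩, hT3⟩ := hT'
    constructor
    · intro hx
      have key : ∀ z, z < n → A (c z) = {z} → z ∈ T := by
        intro z hz hAz
        have : c z ∈ T.image c := by
          rw [hT3]
          exact Finset.mem_range.2 (hc z hz)
        obtain ⟨y, hy, hyz⟩ := Finset.mem_image.1 this
        have h1 := hx y hy
        rw [hyz, hAz, Finset.mem_singleton] at h1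
        rwa [h1] at hy
      exact ⟨key i (by omega) hAi, key (i + 1) hi hAi1⟩
    · rintro ⟨h1, h2⟩ x hx
      rcases eq_or_ne (c x) (c i) with h3 | h3
      · rw [h3, hAi, Finset.mem_singleton]
        exact hinj hx h1 h3
      · rcases eq_or_ne (c x) (c (i + 1)) with h4 | h4
        · rw [h4, hAi1, Finset.mem_singleton]
          exact hinj hx h2 h4
        · rw [hAo _ h3 h4]
          unfold fib
          rw [Finset.mem_filter]
          exact ⟨hT1 hx, rfl⟩
  rw [hfil] at h
  rw [h]
  have ha : c i ∈ Finset.range m := Finset.mem_range.2 (hc i (by omega))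
  have hb : c (i + 1) ∈ (Finset.range m).erase (c i) :=
    Finset.mem_erase.2 ⟨Ne.symm hne, Finset.mem_range.2 (hc _ hi)⟩
  rw [← Finset.mul_prod_erase _ _ ha, ← Finset.mul_prod_erase _ _ hb,
    ← Finset.mul_prod_erase _ k ha, ← Finset.mul_prod_erase _ k hb, hAi, hAi1,
    Finset.card_singleton, Finset.card_singleton, one_mul, one_mul]
  have hrest : ∏ j ∈ ((Finset.range m).erase (c i)).erase (c (i + 1)), (A j).card =
      ∏ j ∈ ((Finset.range m).erase (c i)).erase (c (i + 1)), k j := by
    refine Finset.prod_congr rfl fun j hj => ?_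
    rw [Finset.mem_erase, Finset.mem_erase] at hj
    rw [hAo j hj.2.1 hj.1, hN j (Finset.mem_range.1 hj.2.2)]
  rw [hrest]
  ring

theorem sum_dcost {n m : ℕ} {k : ℕ → ℕ} (w : Word) (hw : IsWord n w) (c : ℕ → ℕ)
    (hc : ∀ x < n, c x < m) (hN : ∀ j < m, (fib n c j).card = k j) :
    ∑ T ∈ Trc n m c, dcost k c T w = (∏ j ∈ Finset.range m, k j) * inter c w := by
  classical
  induction w generalizing c with
  | nil =>
    show ∑ T ∈ Trc n m c, 0 = _ * 0
    simp
  | cons a w ih =>
    have hi : a.1 + 1 < n := hw a List.mem_cons_self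
    have hw' : IsWord n w := fun b hb => hw b (List.mem_cons_of_mem _ hb)
    have hc' : ∀ x < n, (c ∘ tr a.1) x < m := fun x hx => hc _ ((tr_lt hi).2 hx)
    have hN' : ∀ j < m, (fib n (c ∘ tr a.1) j).card = k j := by
      intro j hj
      rw [fib_tr hi, card_sws]
      exact hN j hj
    have hih := ih hw' (c ∘ tr a.1) hc' hN'
    have e1 : ∀ T, dcost k c T (a :: w) =
        (if a.1 ∈ T ∧ a.1 + 1 ∈ T then k (c a.1) * k (c (a.1 + 1)) else 0) +
          dcost k (c ∘ tr a.1) (sws a.1 T) w := fun T => rfl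
    have e2 : inter c (a :: w) = (if c a.1 = c (a.1 + 1) then 0 else 1) +
        inter (c ∘ tr a.1) w := rfl
    rw [Finset.sum_congr rfl fun T _ => e1 T, Finset.sum_add_distrib, e2, mul_add, ← hih]
    congr 1
    · by_cases heq : c a.1 = c (a.1 + 1)
      · rw [if_pos heq, mul_zero]
        refine Finset.sum_eq_zero fun T hT => ?_
        rw [if_neg]
        rintro ⟨h1, h2⟩
        have := trc_inj hT h1 h2 heq
        omega
      · rw [if_neg heq, mul_one, ← Finset.sum_filter, Finset.sum_const, smul_eq_mul]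
        exact trc_pair hc hN hi heq
    · refine Finset.sum_nbij' (sws a.1) (sws a.1) (fun T hT => trc_sws hi hT) ?_
        (fun T _ => sws_sws _ _) (fun T _ => sws_sws _ _) (fun T _ => rfl)
      intro T hT
      have h1 := trc_sws hi hT
      have h2 : (c ∘ tr a.1) ∘ tr a.1 = c := by
        funext x
        show c (tr a.1 (tr a.1 x)) = c x
        rw [Equiv.swap_apply_self]
      rwa [h2] at h1

theorem exists_le {n m : ℕ} {k : ℕ → ℕ} (w : Word) (hw : IsWord n w) (c : ℕ → ℕ)
    (hc : ∀ x < n, c x < m) (hN : ∀ j < m, (fib n c j).card = k j) (hk : ∀ j < m, 1 ≤ k j) :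
    ∃ T ∈ Trc n m c, dcost k c T w ≤ inter c w := by
  have hcard := trc_card (n := n) (m := m) (c := c) (k := k) hc hN
  have hpos : 0 < ∏ j ∈ Finset.range m, k j :=
    Finset.prod_pos fun j hj => hk j (Finset.mem_range.1 hj)
  have hne : (Trc n m c).Nonempty := by
    rw [← Finset.card_pos, hcard]
    exact hpos
  refine Finset.exists_le_of_sum_le hne ?_
  rw [sum_dcost w hw c hc hN, Finset.sum_const, hcard, smul_eq_mul]

theorem intra_del {n : ℕ} (j : ℕ) (w : Word) (hw : IsWord n w) (c : ℕ → ℕ) :
    (del (fib n c j) w).length = intra j c w := by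
  induction w generalizing c with
  | nil => rfl
  | cons a w ih =>
    have hi : a.1 + 1 < n := hw a List.mem_cons_self
    have hw' : IsWord n w := fun b hb => hw b (List.mem_cons_of_mem _ hb)
    have hih := ih hw' (c ∘ tr a.1)
    rw [fib_tr hi] at hih
    show ((if a.1 ∈ fib n c j ∧ a.1 + 1 ∈ fib n c j then [(rank (fib n c j) a.1, a.2)] else []) ++
      del (sws a.1 (fib n c j)) w).length =
      (if c a.1 = j ∧ c (a.1 + 1) = j then 1 else 0) + intra j (c ∘ tr a.1) w
    rw [List.length_append, hih]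
    congr 1
    have h1 : (a.1 ∈ fib n c j ∧ a.1 + 1 ∈ fib n c j) ↔ (c a.1 = j ∧ c (a.1 + 1) = j) := by
      unfold fib
      rw [Finset.mem_filter, Finset.mem_filter, Finset.mem_range, Finset.mem_range]
      constructor
      · rintro ⟨⟨-, h1⟩, -, h2⟩
        exact ⟨h1, h2⟩
      · rintro ⟨h1, h2⟩
        exact ⟨⟨by omega, h1⟩, hi, h2⟩
    by_cases h2 : c a.1 = j ∧ c (a.1 + 1) = j
    · rw [if_pos h2, if_pos (h1.2 h2)]
      rfl
    · rw [if_neg h2, if_neg fun h3 => h2 (h1.1 h3)]
      rfl

theorem inter_add_intra {n m : ℕ} (w : Word) (hw : IsWord n w) (c : ℕ → ℕ) (hc : ∀ x < n, c x < m) :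
    inter c w + ∑ j ∈ Finset.range m, intra j c w = w.length := by
  induction w generalizing c with
  | nil =>
    show 0 + ∑ j ∈ Finset.range m, 0 = 0
    simp
  | cons a w ih =>
    have hi : a.1 + 1 < n := hw a List.mem_cons_self
    have hw' : IsWord n w := fun b hb => hw b (List.mem_cons_of_mem _ hb)
    have hc' : ∀ x < n, (c ∘ tr a.1) x < m := fun x hx => hc _ ((tr_lt hi).2 hx)
    have hih := ih hw' (c ∘ tr a.1) hc'
    have e1 : ∀ j, intra j c (a :: w) = (if c a.1 = j ∧ c (a.1 + 1) = j then 1 else 0) +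
        intra j (c ∘ tr a.1) w := fun j => rfl
    have e2 : inter c (a :: w) = (if c a.1 = c (a.1 + 1) then 0 else 1) +
        inter (c ∘ tr a.1) w := rfl
    rw [Finset.sum_congr rfl fun j _ => e1 j, Finset.sum_add_distrib, e2, List.length_cons]
    have h1 : (if c a.1 = c (a.1 + 1) then 0 else 1) +
        ∑ j ∈ Finset.range m, (if c a.1 = j ∧ c (a.1 + 1) = j then 1 else 0) = 1 := by
      by_cases heq : c a.1 = c (a.1 + 1)
      · rw [if_pos heq, zero_add]
        rw [Finset.sum_eq_single (c a.1)]
        · rw [if_pos ⟨rfl, heq.symm⟩]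
        · intro j _ hj
          rw [if_neg]
          rintro ⟨h2, -⟩
          exact hj h2.symm
        · intro h2
          exact absurd (Finset.mem_range.2 (hc a.1 (by omega))) h2
      · have h0 : ∑ j ∈ Finset.range m, (if c a.1 = j ∧ c (a.1 + 1) = j then 1 else 0) = 0 := by
          refine Finset.sum_eq_zero fun j _ => ?_
          rw [if_neg]
          rintro ⟨h2, h3⟩
          exact heq (h2.trans h3.symm)
        rw [if_neg heq, h0]
    omega

end Pool.Agent.Work.MP_64e010_lc
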