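import Pool.Agent.Work.MP_64e010_lc.Br.ValB

/-!
# Br/Blk (M): crossings of cables in the braid group

`row a q = σ_a σ_{a+1} ... σ_{a+q-1}` (`List.range_succ` for the last letter; `List.range_succ_eq_map` for the first one). (1) `row_add`: `List.range_add` / induction on `r`. (2) `row_conj`: `σ_a ... σ_{a+q-1} σ_{a+j} = σ_{a+j+1} σ_a ... σ_{a+q-1}` for `j + 2 ≤ q`: write the row as `row a j ++ [a+j, a+j+1] ++ row (a+j+2) (q-j-2)`;
`σ_{a+j}` commutes with the last part (far letters), `σ_{a+j} σ_{a+j+1} σ_{a+j} = σ_{a+j+1} σ_{a+j} σ_{a+j+1}`, and `σ_{a+j+1}` commutes with the first part. (3) `blk_add`: induction on `p`: `blk a (p+1) (q+r) = row (a+p) (q+r) ++ blk a p (q+r)`, `row (a+p) (q+r) = row (a+p) q ++ row (a+p+q) r`, and `row (a+p+q) r` (letters `≥ a+p+q`)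
commutes with `blk a p q` (letters `≤ a+p+q-2`), `a + q + p = a + p + q`. (4) `blk_conj`: induction on `p`: `blk a (p+1) q * σ_{a+j} = row (a+p) q * blk a p q * σ_{a+j} = row (a+p) q * σ_{a+p+j} * blk a p q = σ_{a+p+j+1} * ...` (`row_conj` at `a + p`).
(5) `blk_yb`: `blk_add` gives `blk a p q * blk (a+q) p r = blk a p (q+r)` and `blk a p r * blk (a+r) p q = blk a p (r+q)`; by `blk_conj` (applied to every letter of `blk a q r`, which are `a + j` with `j + 2 ≤ q + r`)
`blk a p (q+r) * blk a q r = blk (a+p) q r * blk a p (q+r)` (for a word `u` all of whose letters are positive and in the range: induction on `u`; note `blk (a+p) q r` is `blk a q r` translated by `p`, induction on `q`).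
-/

set_option autoImplicit false

namespace Pool.Agent.Work.MP_64e010_lc

private theorem row_add (a q r : ℕ) : row a (q + r) = row a q ++ row (a + q) r := by
  unfold row
  rw [List.range_add, List.map_append, List.map_map]
  congr 1
  refine List.map_congr_left fun j _ => ?_
  show (a + (q + j), true) = (a + q + j, true)
  rw [add_assoc]

private theorem row_one (a : ℕ) : row a 1 = [(a, true)] := rfl

private theorem row_mem {a q : ℕ} {x : ℕ × Bool} (h : x ∈ row a q) :
    a ≤ x.1 ∧ x.1 + 1 ≤ a + q ∧ x.2 = true := by
  unfold row at h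
  obtain ⟨j, hj, rfl⟩ := List.mem_map.1 h
  have h1 := List.mem_range.1 hj
  refine ⟨?_, ?_, rfl⟩
  · show a ≤ a + j
    omega
  · show a + j + 1 ≤ a + q
    omega

private theorem blk_succ (a p q : ℕ) : blk a (p + 1) q = row (a + p) q ++ blk a p q := rfl

private theorem lv_comm (n : ℕ) (x y : ℕ × Bool) (h : x.1 + 2 ≤ y.1 ∨ y.1 + 2 ≤ x.1) :
    Commute (lv n x) (lv n y) := by
  have h1 : Commute (gen n x.1) (gen n y.1) := by
    rcases h with h | h
    · exact gen_comm h
    · exact (gen_comm h).symm
  unfold lv
  split_ifs
  · exact h1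
  · exact h1.inv_right
  · exact h1.inv_left
  · exact h1.inv_inv

private theorem letter_comm (n : ℕ) (x : ℕ × Bool) (w : Word)
    (h : ∀ y ∈ w, x.1 + 2 ≤ y.1 ∨ y.1 + 2 ≤ x.1) : Commute (lv n x) (val n w) := by
  induction w with
  | nil =>
    rw [val_nil]
    exact Commute.one_right _
  | cons y w ih =>
    rw [val_cons]
    exact (lv_comm n x y (h y List.mem_cons_self)).mul_right
      (ih fun z hz => h z (List.mem_cons_of_mem _ hz))

private theorem far_comm (n : ℕ) (u w : Word)
    (h : ∀ x ∈ u, ∀ y ∈ w, x.1 + 2 ≤ y.1 ∨ y.1 + 2 ≤ x.1) : Commute (val n u) (val n w) := by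
  induction u with
  | nil =>
    rw [val_nil]
    exact Commute.one_left _
  | cons x u ih =>
    rw [val_cons]
    exact (letter_comm n x w (h x List.mem_cons_self)).mul_left
      (ih fun z hz => h z (List.mem_cons_of_mem _ hz))

private theorem row_conj {n a q j : ℕ} (hn : a + q < n) (hj : j + 2 ≤ q) :
    val n (row a q) * gen n (a + j) = gen n (a + j + 1) * val n (row a q) := by
  obtain ⟨r, rfl⟩ : ∃ r, q = j + (1 + (1 + r)) := ⟨q - j - 2, by omega⟩
  have h1 : row a (j + (1 + (1 + r))) =
      row a j ++ ([(a + j, true)] ++ ([(a + j + 1, true)] ++ row (a + j + 1 + 1) r)) := by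
    rw [row_add, row_add, row_add, row_one, row_one]
  have hb : gen n (a + j) * gen n (a + j + 1) * gen n (a + j) =
      gen n (a + j + 1) * gen n (a + j) * gen n (a + j + 1) := gen_braid (by omega)
  have hC : Commute (gen n (a + j)) (val n (row (a + j + 1 + 1) r)) :=
    letter_comm n (a + j, true) _ fun y hy => by
      have := (row_mem hy).1
      left
      show a + j + 2 ≤ y.1
      omega
  have hA : Commute (gen n (a + j + 1)) (val n (row a j)) :=
    letter_comm n (a + j + 1, true) _ fun y hy => by
      have := (row_mem hy).2.1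
      right
      show y.1 + 2 ≤ a + j + 1
      omega
  have hx : val n [(a + j, true)] = gen n (a + j) := by
    rw [val_cons, val_nil, mul_one]
    rfl
  have hy : val n [(a + j + 1, true)] = gen n (a + j + 1) := by
    rw [val_cons, val_nil, mul_one]
    rfl
  rw [h1, val_append, val_append, val_append, hx, hy]
  generalize gen n (a + j) = x at *
  generalize gen n (a + j + 1) = y at *
  generalize val n (row a j) = A at *
  generalize val n (row (a + j + 1 + 1) r) = C at *
  calc A * (x * (y * C)) * x = A * (x * (y * (C * x))) := by simp only [mul_assoc]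
    _ = A * (x * (y * (x * C))) := by rw [hC.eq]
    _ = A * ((x * y * x) * C) := by simp only [mul_assoc]
    _ = A * ((y * x * y) * C) := by rw [hb]
    _ = (A * y) * (x * (y * C)) := by simp only [mul_assoc]
    _ = (y * A) * (x * (y * C)) := by rw [hA.eq]
    _ = y * (A * (x * (y * C))) := by rw [mul_assoc]

private theorem row_map (a q p : ℕ) :
    (row a q).map (fun x => (x.1 + p, x.2)) = row (a + p) q := by
  unfold row
  rw [List.map_map]
  refine List.map_congr_left fun j _ => ?_
  show (a + j + p, true) = (a + p + j, true)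
  rw [add_right_comm]

private theorem blk_map (a q r p : ℕ) :
    (blk a q r).map (fun x => (x.1 + p, x.2)) = blk (a + p) q r := by
  induction q with
  | zero => rfl
  | succ q ih =>
    rw [blk_succ, blk_succ, List.map_append, row_map, ih, add_right_comm]

theorem row_length (a q : ℕ) : (row a q).length = q := by
  unfold row
  rw [List.length_map, List.length_range]

theorem blk_length (a p q : ℕ) : (blk a p q).length = p * q := by
  induction p with
  | zero =>
    rw [Nat.zero_mul]
    rfl
  | succ p ih =>
    rw [blk_succ, List.length_append, row_length, ih]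
    ring

theorem blk_letters {a p q : ℕ} {x : ℕ × Bool} (h : x ∈ blk a p q) :
    a ≤ x.1 ∧ x.1 + 2 ≤ a + p + q ∧ x.2 = true := by
  induction p with
  | zero => exact absurd h List.not_mem_nil
  | succ p ih =>
    rw [blk_succ] at h
    rcases List.mem_append.1 h with h1 | h1
    · obtain ⟨h2, h3, h4⟩ := row_mem h1
      exact ⟨by omega, by omega, h4⟩
    · obtain ⟨h2, h3, h4⟩ := ih h1
      exact ⟨h2, by omega, h4⟩

theorem blk_isWord {n a p q : ℕ} (h : a + p + q ≤ n) : IsWord n (blk a p q) := by
  intro x hx
  have h1 := (blk_letters hx).2.1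
  omega

/-- words with far letters commute -/
theorem val_comm (n : ℕ) (u w : Word) (h : ∀ x ∈ u, ∀ y ∈ w, x.1 + 2 ≤ y.1 ∨ y.1 + 2 ≤ x.1) :
    val n u * val n w = val n w * val n u := by
  exact (far_comm n u w h).eq

theorem blk_add {n a p q r : ℕ} :
    val n (blk a p (q + r)) = val n (blk a p q) * val n (blk (a + q) p r) := by
  induction p with
  | zero =>
    show (1 : B n) = 1 * 1
    rw [mul_one]
  | succ p ih =>
    rw [blk_succ, blk_succ, blk_succ, val_append, val_append, val_append, row_add, val_append, ih]
    have h1 : Commute (val n (row (a + p + q) r)) (val n (blk a p q)) :=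
      far_comm n _ _ fun x hx y hy => by
        have h2 := (row_mem hx).1
        have h3 := (blk_letters hy).2.1
        right
        omega
    have h2 : a + q + p = a + p + q := by omega
    rw [h2]
    generalize val n (row (a + p) q) = A at *
    generalize val n (row (a + p + q) r) = C at *
    generalize val n (blk a p q) = D at *
    generalize val n (blk (a + q) p r) = E at *
    calc A * C * (D * E) = A * (C * D) * E := by simp only [mul_assoc]
      _ = A * (D * C) * E := by rw [h1.eq]
      _ = A * D * (C * E) := by simp only [mul_assoc]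

theorem blk_conj {n a p q j : ℕ} (hn : a + p + q ≤ n) (hj : j + 2 ≤ q) :
    val n (blk a p q) * gen n (a + j) = gen n (a + p + j) * val n (blk a p q) := by
  induction p with
  | zero =>
    show (1 : B n) * gen n (a + j) = gen n (a + 0 + j) * 1
    rw [one_mul, mul_one, add_zero]
  | succ p ih =>
    have h1 := ih (by omega)
    have h2 : val n (row (a + p) q) * gen n (a + p + j) =
        gen n (a + p + j + 1) * val n (row (a + p) q) := row_conj (by omega) hj
    have h3 : a + (p + 1) + j = a + p + j + 1 := by omega
    rw [blk_succ, val_append, mul_assoc, h1, ← mul_assoc, h2, h3, mul_assoc]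

theorem blk_yb {n a p q r : ℕ} (hn : a + p + q + r ≤ n) :
    val n (blk a p q) * val n (blk (a + q) p r) * val n (blk a q r) =
      val n (blk (a + p) q r) * val n (blk a p r) * val n (blk (a + r) p q) := by
  have key : ∀ u : Word, (∀ x ∈ u, a ≤ x.1 ∧ x.1 + 2 ≤ a + (q + r) ∧ x.2 = true) →
      val n (blk a p (q + r)) * val n u =
        val n (u.map (fun x => (x.1 + p, x.2))) * val n (blk a p (q + r)) := by
    intro u
    induction u with
    | nil =>
      intro _
      rw [List.map_nil, val_nil, mul_one, one_mul]
    | cons x u ih =>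
      intro hu
      obtain ⟨h1, h2, h3⟩ := hu x List.mem_cons_self
      have h4 := ih fun y hy => hu y (List.mem_cons_of_mem _ hy)
      obtain ⟨j, hj⟩ : ∃ j, x.1 = a + j := ⟨x.1 - a, by omega⟩
      have h5 : lv n x = gen n (a + j) := by
        unfold lv
        rw [h3, hj]
        rfl
      have h6 : lv n (x.1 + p, x.2) = gen n (a + p + j) := by
        unfold lv
        rw [h3, hj, add_right_comm]
        rfl
      have h7 : val n (blk a p (q + r)) * gen n (a + j) =
          gen n (a + p + j) * val n (blk a p (q + r)) := blk_conj (by omega) (by omega)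
      rw [List.map_cons, val_cons, val_cons, h5, h6, ← mul_assoc, h7, mul_assoc, h4, mul_assoc]
  have h1 := key (blk a q r) fun x hx => by
    obtain ⟨h2, h3, h4⟩ := blk_letters hx
    exact ⟨h2, by omega, h4⟩
  rw [blk_map] at h1
  rw [← blk_add, h1, add_comm q r, blk_add, mul_assoc]

end Pool.Agent.Work.MP_64e010_lc
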