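import Pool.Agent.Work.MP_64e010_lc.Br.Blk

/-!
# Br/CabHom (M): cabling is well defined on braids

`off_tr_le`: for `j ≤ i` the sum over `range j` is not changed; `off_tr_ge`: for `i + 2 ≤ j` the transposition permutes `range j`; `off_tr_succ`: `off (κ ∘ tr i) (i + 1) = off κ i + κ (i + 1)`.
`cab_hom`: let `X = {κ : ℕ → ℕ // off κ m = n} × B n`; for `i : Gen m` let `A i (κ, b) = (κ ∘ tr i, b * val n (blk (off κ i) (κ i) (κ (i+1))))`, with inverse `(κ, b) ↦ (κ ∘ tr i, b * (val n (blk (off κ i) (κ (i+1)) (κ i)))⁻¹)` (`off (κ ∘ tr i) i = off κ i`, `(κ ∘ tr i) i = κ (i+1)`). As in `DelHom`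
`i ↦ MulOpposite.op (A i)` satisfies the braid relations: `i + 2 ≤ j`: the letters of the two blocks are far apart (`off κ i + κ i + κ (i+1) = off κ (i+2) ≤ off κ j`, `blk_letters`, `val_comm`), and the offsets and widths are not changed. `j = i + 1`: with `a = off κ i`, `p = κ i`, `q = κ (i+1)`, `r = κ (i+2)` this is `blk_yb`
(`off (κ ∘ tr i) (i+1) = a + q` etc.; `a + p + q + r = off κ (i+3) ≤ off κ m = n`). For a word `w` with `IsWord m w` the permutation of `val m w` maps `(κ, b)` to `(_, b * val n (cab κ w))` (induction; for a negative letter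
`val n (blkw a p q false) = val n (inv (blk a q p)) = (val n (blk a q p))⁻¹`).
`cab_length`: induction, `blk_length`, `inv_length` (prove the last in place: `simp [inv]`).
-/

set_option autoImplicit false

namespace Pool.Agent.Work.MP_64e010_lc

theorem off_succ (κ : ℕ → ℕ) (i : ℕ) : off κ (i + 1) = off κ i + κ i := by
  unfold off
  rw [Finset.sum_range_succ]

theorem off_mono (κ : ℕ → ℕ) {i j : ℕ} (h : i ≤ j) : off κ i ≤ off κ j := by
  unfold off
  exact Finset.sum_le_sum_of_subset (Finset.range_mono h)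

private theorem tr_l (i : ℕ) : tr i i = i + 1 := Equiv.swap_apply_left i (i + 1)

private theorem tr_r (i : ℕ) : tr i (i + 1) = i := Equiv.swap_apply_right i (i + 1)

private theorem tr_ne {i k : ℕ} (h1 : k ≠ i) (h2 : k ≠ i + 1) : tr i k = k :=
  Equiv.swap_apply_of_ne_of_ne h1 h2

private theorem comp_tr_l (κ : ℕ → ℕ) (i : ℕ) : (κ ∘ tr i) i = κ (i + 1) := congrArg κ (tr_l i)

private theorem comp_tr_r (κ : ℕ → ℕ) (i : ℕ) : (κ ∘ tr i) (i + 1) = κ i := congrArg κ (tr_r i)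

private theorem comp_tr_ne (κ : ℕ → ℕ) {i k : ℕ} (h1 : k ≠ i) (h2 : k ≠ i + 1) :
    (κ ∘ tr i) k = κ k := congrArg κ (tr_ne h1 h2)

theorem off_tr_le (κ : ℕ → ℕ) {i j : ℕ} (h : j ≤ i) : off (κ ∘ tr i) j = off κ j := by
  unfold off
  refine Finset.sum_congr rfl fun k hk => ?_
  have hk' := Finset.mem_range.1 hk
  exact comp_tr_ne κ (by omega) (by omega)

theorem off_tr_succ (κ : ℕ → ℕ) (i : ℕ) : off (κ ∘ tr i) (i + 1) = off κ i + κ (i + 1) := by
  rw [off_succ, off_tr_le κ le_rfl, comp_tr_l]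

theorem off_tr_ge (κ : ℕ → ℕ) {i j : ℕ} (h : i + 2 ≤ j) : off (κ ∘ tr i) j = off κ j := by
  induction j, h using Nat.le_induction with
  | base =>
    show off (κ ∘ tr i) (i + 1 + 1) = off κ (i + 1 + 1)
    rw [off_succ (κ ∘ tr i) (i + 1), off_tr_succ, comp_tr_r, off_succ κ (i + 1), off_succ κ i]
    omega
  | succ j hj ih =>
    rw [off_succ, off_succ, ih, comp_tr_ne κ (by omega) (by omega)]

private theorem inv_length (w : Word) : (inv w).length = w.length := by
  unfold inv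
  rw [List.length_reverse, List.length_map]

private theorem inv_isWord {n : ℕ} {w : Word} (h : IsWord n w) : IsWord n (inv w) := by
  intro a ha
  unfold inv at ha
  rw [List.mem_reverse, List.mem_map] at ha
  obtain ⟨b, hb, rfl⟩ := ha
  exact h b hb

theorem cab_length (κ : ℕ → ℕ) (w : Word) : (cab κ w).length = wcost κ w := by
  induction w generalizing κ with
  | nil => rfl
  | cons a w ih =>
    show (blkw (off κ a.1) (κ a.1) (κ (a.1 + 1)) a.2 ++ cab (κ ∘ tr a.1) w).length =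
      κ a.1 * κ (a.1 + 1) + wcost (κ ∘ tr a.1) w
    rw [List.length_append, ih]
    congr 1
    unfold blkw
    split_ifs
    · exact blk_length _ _ _
    · rw [inv_length, blk_length, mul_comm]

theorem cab_isWord {m : ℕ} (κ : ℕ → ℕ) {w : Word} (hw : IsWord m w) : IsWord (off κ m) (cab κ w) := by
  induction w generalizing κ with
  | nil =>
    intro a ha
    exact absurd ha (List.not_mem_nil)
  | cons a w ih =>
    have ha : a.1 + 1 < m := hw a List.mem_cons_self
    have hw' : IsWord m w := fun b hb => hw b (List.mem_cons_of_mem _ hb)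
    show IsWord (off κ m) (blkw (off κ a.1) (κ a.1) (κ (a.1 + 1)) a.2 ++ cab (κ ∘ tr a.1) w)
    have h1 := off_succ κ a.1
    have h2 := off_succ κ (a.1 + 1)
    have h3 : off κ (a.1 + 1 + 1) ≤ off κ m := off_mono κ ha
    refine isWord_append.2 ⟨?_, ?_⟩
    · unfold blkw
      split_ifs
      · exact blk_isWord (by omega)
      · exact inv_isWord (blk_isWord (by omega))
    · rw [← off_tr_ge κ (i := a.1) (j := m) (by omega)]
      exact ih _ hw'

/-- the set on which the braid group acts -/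
private abbrev CX (m N : ℕ) : Type := {κ : ℕ → ℕ // off κ m = N} × B N

private theorem off_perm {m N : ℕ} (i : Gen m) {κ : ℕ → ℕ} (h : off κ m = N) :
    off (κ ∘ tr i.1) m = N := by
  have h1 := i.2
  rw [off_tr_ge κ (by omega), h]

private noncomputable def fwd (m N : ℕ) (i : Gen m) (x : CX m N) : CX m N :=
  (⟨x.1.1 ∘ tr i.1, off_perm i x.1.2⟩,
    x.2 * val N (blk (off x.1.1 i.1) (x.1.1 i.1) (x.1.1 (i.1 + 1))))

private noncomputable def bwd (m N : ℕ) (i : Gen m) (x : CX m N) : CX m N :=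
  (⟨x.1.1 ∘ tr i.1, off_perm i x.1.2⟩,
    x.2 * (val N (blk (off x.1.1 i.1) (x.1.1 (i.1 + 1)) (x.1.1 i.1)))⁻¹)

private theorem tr_tr (κ : ℕ → ℕ) (i : ℕ) : (κ ∘ tr i) ∘ tr i = κ := by
  funext k
  show κ (tr i (tr i k)) = κ k
  rw [Equiv.swap_apply_self]

private theorem cx_ext {m N : ℕ} {x y : CX m N} (h1 : x.1.1 = y.1.1) (h2 : x.2 = y.2) : x = y :=
  Prod.ext (Subtype.ext h1) h2

private theorem bwd_fwd (m N : ℕ) (i : Gen m) (x : CX m N) : bwd m N i (fwd m N i x) = x := by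
  refine cx_ext (tr_tr _ _) ?_
  show x.2 * val N (blk (off x.1.1 i.1) (x.1.1 i.1) (x.1.1 (i.1 + 1))) *
    (val N (blk (off (x.1.1 ∘ tr i.1) i.1) ((x.1.1 ∘ tr i.1) (i.1 + 1))
      ((x.1.1 ∘ tr i.1) i.1)))⁻¹ = x.2
  rw [off_tr_le _ le_rfl, comp_tr_r, comp_tr_l, mul_inv_cancel_right]

private theorem fwd_bwd (m N : ℕ) (i : Gen m) (x : CX m N) : fwd m N i (bwd m N i x) = x := by
  refine cx_ext (tr_tr _ _) ?_
  show x.2 * (val N (blk (off x.1.1 i.1) (x.1.1 (i.1 + 1)) (x.1.1 i.1)))⁻¹ *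
    val N (blk (off (x.1.1 ∘ tr i.1) i.1) ((x.1.1 ∘ tr i.1) i.1)
      ((x.1.1 ∘ tr i.1) (i.1 + 1))) = x.2
  rw [off_tr_le _ le_rfl, comp_tr_r, comp_tr_l, inv_mul_cancel_right]

private noncomputable def AA (m N : ℕ) (i : Gen m) : Equiv.Perm (CX m N) :=
  ⟨fwd m N i, bwd m N i, bwd_fwd m N i, fwd_bwd m N i⟩

private theorem AA_far {m N : ℕ} {i j : Gen m} (h : i.1 + 2 ≤ j.1) :
    AA m N i * AA m N j = AA m N j * AA m N i := by
  ext1 x
  show fwd m N i (fwd m N j x) = fwd m N j (fwd m N i x)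
  obtain ⟨⟨κ, hκ⟩, b⟩ := x
  refine cx_ext ?_ ?_
  · show (κ ∘ tr j.1) ∘ tr i.1 = (κ ∘ tr i.1) ∘ tr j.1
    funext k
    show κ (tr j.1 (tr i.1 k)) = κ (tr i.1 (tr j.1 k))
    congr 1
    by_cases h1 : k = i.1
    · subst h1
      rw [tr_l, tr_ne (i := j.1) (by omega) (by omega), tr_ne (i := j.1) (by omega) (by omega),
        tr_l]
    · by_cases h2 : k = i.1 + 1
      · subst h2
        rw [tr_r, tr_ne (i := j.1) (by omega) (by omega), tr_ne (i := j.1) (by omega) (by omega),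
          tr_r]
      · rw [tr_ne (i := i.1) h1 h2]
        by_cases h3 : k = j.1
        · subst h3
          rw [tr_l, tr_ne (i := i.1) (by omega) (by omega)]
        · by_cases h4 : k = j.1 + 1
          · subst h4
            rw [tr_r, tr_ne (i := i.1) (by omega) (by omega)]
          · rw [tr_ne (i := j.1) h3 h4, tr_ne (i := i.1) h1 h2]
  · show b * val N (blk (off κ j.1) (κ j.1) (κ (j.1 + 1))) *
        val N (blk (off (κ ∘ tr j.1) i.1) ((κ ∘ tr j.1) i.1) ((κ ∘ tr j.1) (i.1 + 1))) =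
      b * val N (blk (off κ i.1) (κ i.1) (κ (i.1 + 1))) *
        val N (blk (off (κ ∘ tr i.1) j.1) ((κ ∘ tr i.1) j.1) ((κ ∘ tr i.1) (j.1 + 1)))
    rw [off_tr_le κ (by omega : i.1 ≤ j.1), off_tr_ge κ h,
      comp_tr_ne κ (i := j.1) (k := i.1) (by omega) (by omega),
      comp_tr_ne κ (i := j.1) (k := i.1 + 1) (by omega) (by omega),
      comp_tr_ne κ (i := i.1) (k := j.1) (by omega) (by omega),
      comp_tr_ne κ (i := i.1) (k := j.1 + 1) (by omega) (by omega), mul_assoc, mul_assoc]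
    congr 1
    refine val_comm N _ _ fun y hy z hz => Or.inr ?_
    have h1 := blk_letters hy
    have h2 := blk_letters hz
    have h3 := off_succ κ i.1
    have h4 := off_succ κ (i.1 + 1)
    have h5 : off κ (i.1 + 1 + 1) ≤ off κ j.1 := off_mono κ h
    omega

private theorem tr_braid (i k : ℕ) :
    tr i (tr (i + 1) (tr i k)) = tr (i + 1) (tr i (tr (i + 1) k)) := by
  by_cases h1 : k = i
  · subst h1
    rw [tr_l, tr_l, tr_ne (i := k) (k := k + 1 + 1) (by omega) (by omega),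
      tr_ne (i := k + 1) (k := k) (by omega) (by omega), tr_l, tr_l]
  · by_cases h2 : k = i + 1
    · subst h2
      rw [tr_r, tr_ne (i := i + 1) (k := i) (by omega) (by omega), tr_l, tr_l,
        tr_ne (i := i) (k := i + 1 + 1) (by omega) (by omega), tr_r]
    · by_cases h3 : k = i + 1 + 1
      · subst h3
        rw [tr_ne (i := i) (k := i + 1 + 1) (by omega) (by omega), tr_r, tr_r,
          tr_ne (i := i + 1) (k := i) (by omega) (by omega)]
      · rw [tr_ne (i := i) h1 h2, tr_ne (i := i + 1) h2 h3, tr_ne (i := i) h1 h2,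
          tr_ne (i := i + 1) h2 h3]

private theorem AA_braid {m N : ℕ} {i j : Gen m} (h : j.1 = i.1 + 1) :
    AA m N i * AA m N j * AA m N i = AA m N j * AA m N i * AA m N j := by
  ext1 x
  show fwd m N i (fwd m N j (fwd m N i x)) = fwd m N j (fwd m N i (fwd m N j x))
  obtain ⟨⟨κ, hκ⟩, b⟩ := x
  obtain ⟨i, hi⟩ := i
  obtain ⟨j, hj⟩ := j
  have h' : j = i + 1 := h
  subst h'
  refine cx_ext ?_ ?_
  · show ((κ ∘ tr i) ∘ tr (i + 1)) ∘ tr i = ((κ ∘ tr (i + 1)) ∘ tr i) ∘ tr (i + 1)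
    funext k
    exact congrArg κ (tr_braid i k)
  · show b * val N (blk (off κ i) (κ i) (κ (i + 1))) *
        val N (blk (off (κ ∘ tr i) (i + 1)) ((κ ∘ tr i) (i + 1)) ((κ ∘ tr i) (i + 1 + 1))) *
        val N (blk (off ((κ ∘ tr i) ∘ tr (i + 1)) i) (((κ ∘ tr i) ∘ tr (i + 1)) i)
          (((κ ∘ tr i) ∘ tr (i + 1)) (i + 1))) =
      b * val N (blk (off κ (i + 1)) (κ (i + 1)) (κ (i + 1 + 1))) *
        val N (blk (off (κ ∘ tr (i + 1)) i) ((κ ∘ tr (i + 1)) i) ((κ ∘ tr (i + 1)) (i + 1))) *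
        val N (blk (off ((κ ∘ tr (i + 1)) ∘ tr i) (i + 1)) (((κ ∘ tr (i + 1)) ∘ tr i) (i + 1))
          (((κ ∘ tr (i + 1)) ∘ tr i) (i + 1 + 1)))
    rw [off_tr_succ κ i, comp_tr_r κ i, comp_tr_ne κ (i := i) (k := i + 1 + 1) (by omega) (by omega),
      off_tr_le (κ ∘ tr i) (by omega : i ≤ i + 1), off_tr_le κ (le_refl i),
      comp_tr_ne (κ ∘ tr i) (i := i + 1) (k := i) (by omega) (by omega), comp_tr_l κ i,
      comp_tr_l (κ ∘ tr i) (i + 1), comp_tr_ne κ (i := i) (k := i + 1 + 1) (by omega) (by omega),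
      off_succ κ i, off_tr_le κ (by omega : i ≤ i + 1),
      comp_tr_ne κ (i := i + 1) (k := i) (by omega) (by omega), comp_tr_l κ (i + 1),
      off_tr_succ (κ ∘ tr (i + 1)) i, off_tr_le κ (by omega : i ≤ i + 1), comp_tr_l κ (i + 1),
      comp_tr_r (κ ∘ tr (i + 1)) i, comp_tr_ne κ (i := i + 1) (k := i) (by omega) (by omega),
      comp_tr_ne (κ ∘ tr (i + 1)) (i := i) (k := i + 1 + 1) (by omega) (by omega),
      comp_tr_r κ (i + 1)]
    have h1 := off_succ κ i
    have h2 := off_succ κ (i + 1)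
    have h3 := off_succ κ (i + 1 + 1)
    have h4 : off κ (i + 1 + 1 + 1) ≤ off κ m := off_mono κ hj
    have h5 := blk_yb (n := N) (a := off κ i) (p := κ i) (q := κ (i + 1)) (r := κ (i + 1 + 1))
      (by omega)
    rw [mul_assoc b, mul_assoc b, mul_assoc b, mul_assoc b, h5]

private theorem AA_key (m N : ℕ) : ∀ r ∈ rels m,
    FreeGroup.lift (fun i : Gen m => (AA m N i)⁻¹) r = 1 := by
  rintro r (⟨i, j, hij, rfl⟩ | ⟨i, j, hij, rfl⟩)
  · simp only [map_mul, map_inv, FreeGroup.lift_apply_of, inv_inv]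
    rw [mul_assoc, AA_far hij]
    group
  · simp only [map_mul, map_inv, FreeGroup.lift_apply_of, inv_inv]
    have h1 := AA_braid (m := m) (N := N) hij
    rw [mul_assoc, mul_assoc, ← mul_assoc (AA m N j), ← h1]
    group

theorem cab_hom (m : ℕ) (κ : ℕ → ℕ) {u w : Word} (hu : IsWord m u) (hw : IsWord m w)
    (h : val m u = val m w) : val (off κ m) (cab κ u) = val (off κ m) (cab κ w) := by
  obtain ⟨N, hN⟩ : ∃ N : ℕ, off κ m = N := ⟨_, rfl⟩
  rw [hN]
  obtain ⟨φ, hφ⟩ : ∃ φ : B m →* Equiv.Perm (CX m N), ∀ i : Gen m,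
      φ (PresentedGroup.of i) = (AA m N i)⁻¹ :=
    ⟨PresentedGroup.toGroup (AA_key m N), fun i => PresentedGroup.toGroup.of (AA_key m N)⟩
  have key : ∀ v : Word, IsWord m v → ∀ (κ : ℕ → ℕ) (hκ : off κ m = N) (b : B N),
      ((φ (val m v))⁻¹ (⟨κ, hκ⟩, b)).2 = b * val N (cab κ v) := by
    intro v
    induction v with
    | nil =>
      intro _ κ hκ b
      rw [val_nil, map_one, inv_one]
      show b = b * val N []
      rw [val_nil, mul_one]
    | cons a v ih =>
      intro hv κ hκ b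
      have ha : a.1 + 1 < m := hv a List.mem_cons_self
      have hv' : IsWord m v := fun c hc => hv c (List.mem_cons_of_mem _ hc)
      have hg : φ (gen m a.1) = (AA m N ⟨a.1, ha⟩)⁻¹ := by
        unfold gen
        rw [dif_pos ha]
        exact hφ _
      rw [val_cons, map_mul, mul_inv_rev]
      show ((φ (val m v))⁻¹ ((φ (lv m a))⁻¹ (⟨κ, hκ⟩, b))).2 =
        b * val N (blkw (off κ a.1) (κ a.1) (κ (a.1 + 1)) a.2 ++ cab (κ ∘ tr a.1) v)
      rw [val_append, ← mul_assoc]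
      have hoff : off (κ ∘ tr a.1) m = N := by
        rw [off_tr_ge κ (by omega), hκ]
      have h1 : (φ (lv m a))⁻¹ (⟨κ, hκ⟩, b) = (⟨κ ∘ tr a.1, hoff⟩,
          b * val N (blkw (off κ a.1) (κ a.1) (κ (a.1 + 1)) a.2)) := by
        obtain ⟨i, e⟩ := a
        cases e
        · have h2 : (φ (lv m (i, false)))⁻¹ = (AA m N ⟨i, ha⟩)⁻¹ := by
            show (φ (gen m i)⁻¹)⁻¹ = _
            rw [map_inv, inv_inv]
            exact hg
          rw [h2]
          show bwd m N ⟨i, ha⟩ (⟨κ, hκ⟩, b) = _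
          refine cx_ext rfl ?_
          show b * (val N (blk (off κ i) (κ (i + 1)) (κ i)))⁻¹ =
            b * val N (inv (blk (off κ i) (κ (i + 1)) (κ i)))
          rw [val_inv]
        · have h2 : (φ (lv m (i, true)))⁻¹ = AA m N ⟨i, ha⟩ := by
            show (φ (gen m i))⁻¹ = _
            rw [hg, inv_inv]
          rw [h2]
          show fwd m N ⟨i, ha⟩ (⟨κ, hκ⟩, b) = _
          exact cx_ext rfl rfl
      rw [h1]
      exact ih hv' _ hoff _
  have h1 := key u hu κ hN 1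
  have h2 := key w hw κ hN 1
  rw [one_mul] at h1 h2
  rw [← h1, ← h2, h]

end Pool.Agent.Work.MP_64e010_lc
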