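import Pool.Agent.Work.MP_64e010_lc.Br.DelB
import Pool.Agent.Work.MP_64e010_lc.Br.CabHom

/-!
# Br/Col (S-M): the colouring of the positions by their cables

`c0 κ m x` is the number of the `j < m` with `off κ (j+1) ≤ x`; for `x ∈ iv κ j`, `j < m`, these are the numbers `0, ..., j - 1` (`off_mono`), so `c0 κ m x = j`. For `x < off κ m` there is `j < m` with `x ∈ iv κ j` (e.g. `Nat.find` or induction on `m`). `fib_c0`: ext. `trc_trv`: `T ∈ Trc (off κ m) m (c0 κ m)`: for `j < m` exactly one element of `T` has colour `j`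
(`T.image c = range m` and `T.card = m`), and `cnt T (off κ j) (κ j)` is the number of the elements of `T` of colour `j`. `rank_c0`: for `T ∈ Trc`, `x ∈ T`: `rank T x = c0 κ m x` (by `rank_add_cnt`-type counting: `rank T (off κ j) = j`, and in the interval `iv κ j` the only element of `T` is `x`).
-/

set_option autoImplicit false

namespace Pool.Agent.Work.MP_64e010_lc

private theorem c0_mono {κ : ℕ → ℕ} {m x y : ℕ} (h : x ≤ y) : c0 κ m x ≤ c0 κ m y := by
  unfold c0
  apply Finset.card_le_card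
  intro i hi
  rw [Finset.mem_filter] at hi ⊢
  exact ⟨hi.1, hi.2.trans h⟩

private theorem ex_iv {κ : ℕ → ℕ} {m x : ℕ} (hx : x < off κ m) : ∃ j, j < m ∧ x ∈ iv κ j := by
  induction m with
  | zero =>
    have h0 : off κ 0 = 0 := Finset.sum_range_zero _
    omega
  | succ m ih =>
    by_cases h : x < off κ m
    · obtain ⟨j, hj, hxj⟩ := ih h
      exact ⟨j, by omega, hxj⟩
    · exact ⟨m, by omega, Finset.mem_Ico.2 ⟨by omega, hx⟩⟩

theorem c0_eq {κ : ℕ → ℕ} {m j x : ℕ} (hj : j < m) (hx : x ∈ iv κ j) : c0 κ m x = j := by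
  obtain ⟨h1, h2⟩ := Finset.mem_Ico.1 hx
  have h : (Finset.range m).filter (fun i => off κ (i + 1) ≤ x) = Finset.range j := by
    ext i
    rw [Finset.mem_filter, Finset.mem_range, Finset.mem_range]
    constructor
    · rintro ⟨_, h3⟩
      by_contra h4
      have h5 : off κ (j + 1) ≤ off κ (i + 1) := off_mono κ (by omega)
      omega
    · intro h3
      have h5 : off κ (i + 1) ≤ off κ j := off_mono κ (by omega)
      exact ⟨by omega, by omega⟩
  unfold c0
  rw [h, Finset.card_range]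

theorem c0_lt {κ : ℕ → ℕ} {m x : ℕ} (hx : x < off κ m) : c0 κ m x < m := by
  obtain ⟨j, hj, hxj⟩ := ex_iv hx
  rw [c0_eq hj hxj]
  exact hj

theorem fib_c0 {κ : ℕ → ℕ} {m j : ℕ} (hj : j < m) : fib (off κ m) (c0 κ m) j = iv κ j := by
  ext x
  unfold fib
  rw [Finset.mem_filter, Finset.mem_range]
  constructor
  · rintro ⟨h1, h2⟩
    obtain ⟨i, hi, hxi⟩ := ex_iv h1
    rw [c0_eq hi hxi] at h2
    rw [← h2]
    exact hxi
  · intro h
    have h1 := (Finset.mem_Ico.1 h).2
    have h2 : off κ (j + 1) ≤ off κ m := off_mono κ (by omega)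
    exact ⟨by omega, c0_eq hj h⟩

private theorem trc_inj {κ : ℕ → ℕ} {m : ℕ} {T : Finset ℕ} (hT : T ∈ Trc (off κ m) m (c0 κ m)) :
    (T ⊆ Finset.range (off κ m) ∧ T.card = m) ∧ T.image (c0 κ m) = Finset.range m ∧
      Set.InjOn (c0 κ m) T := by
  unfold Trc at hT
  rw [Finset.mem_filter, Finset.mem_powersetCard] at hT
  refine ⟨hT.1, hT.2, ?_⟩
  rw [← Finset.card_image_iff, hT.2, Finset.card_range, hT.1.2]

theorem trc_trv {κ : ℕ → ℕ} {m : ℕ} {T : Finset ℕ} (hT : T ∈ Trc (off κ m) m (c0 κ m)) :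
    Trv κ m T ∧ T.card = m := by
  obtain ⟨⟨h1, h2⟩, h3, h4⟩ := trc_inj hT
  refine ⟨⟨h1, fun j hj => ?_⟩, h2⟩
  have hj' : j ∈ T.image (c0 κ m) := by
    rw [h3]
    exact Finset.mem_range.2 hj
  obtain ⟨x, hx, hxj⟩ := Finset.mem_image.1 hj'
  unfold cnt
  rw [← off_succ, Finset.card_eq_one]
  refine ⟨x, ?_⟩
  ext y
  rw [Finset.mem_inter, Finset.mem_singleton]
  constructor
  · rintro ⟨h5, h6⟩
    exact h4 h5 hx ((c0_eq hj h6).trans hxj.symm)
  · rintro rfl
    refine ⟨hx, ?_⟩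
    have h5 : y ∈ fib (off κ m) (c0 κ m) j := Finset.mem_filter.2 ⟨h1 hx, hxj⟩
    rw [fib_c0 hj] at h5
    exact h5

theorem rank_c0 {κ : ℕ → ℕ} {m x : ℕ} {T : Finset ℕ} (hT : T ∈ Trc (off κ m) m (c0 κ m))
    (hx : x ∈ T) : rank T x = c0 κ m x := by
  obtain ⟨⟨h1, h2⟩, h3, h4⟩ := trc_inj hT
  have h5 : (T.filter (· < x)).image (c0 κ m) = Finset.range (c0 κ m x) := by
    ext i
    rw [Finset.mem_image, Finset.mem_range]
    constructor
    · rintro ⟨y, hy, rfl⟩
      obtain ⟨h6, h7⟩ := Finset.mem_filter.1 hy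
      refine lt_of_le_of_ne (c0_mono h7.le) fun h8 => ?_
      exact absurd (h4 h6 hx h8) h7.ne
    · intro hi
      have h6 : c0 κ m x < m := c0_lt (Finset.mem_range.1 (h1 hx))
      have h7 : i ∈ T.image (c0 κ m) := by
        rw [h3]
        exact Finset.mem_range.2 (by omega)
      obtain ⟨y, hy, hyi⟩ := Finset.mem_image.1 h7
      refine ⟨y, Finset.mem_filter.2 ⟨hy, ?_⟩, hyi⟩
      by_contra h8
      have h9 : c0 κ m x ≤ c0 κ m y := c0_mono (by omega)
      omega
  have h6 := Finset.card_image_of_injOn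
    (h4.mono (Finset.coe_subset.2 (Finset.filter_subset (· < x) T)))
  unfold rank
  rw [← h6, h5, Finset.card_range]

end Pool.Agent.Work.MP_64e010_lc
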