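import Pool.Agent.Work.MP_64e010_lc.Br.DelHom

/-!
# Br/Cover: certificates of minimality by deletion of strands

`prs s w` lists the pairs of strands which cross in `w` (`s` is the name of the strand at a position).
The length of `del S w` is the number of these pairs inside of `S`.
-/

set_option autoImplicit false

namespace Pool.Agent.Work.MP_64e010_lc

/-- the pairs of strands which cross; `s x` is the name of the strand at the position `x` -/
private def prs : (ℕ → ℕ) → Word → List (ℕ × ℕ)
  | _, [] => []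
  | s, a :: w => (s a.1, s (a.1 + 1)) :: prs (s ∘ tr a.1) w

private theorem prs_length (s : ℕ → ℕ) (w : Word) : (prs s w).length = w.length := by
  induction w generalizing s with
  | nil => rfl
  | cons a w ih =>
    show ((s a.1, s (a.1 + 1)) :: prs (s ∘ tr a.1) w).length = _
    rw [List.length_cons, List.length_cons, ih]

private theorem del_length (s : ℕ → ℕ) (w : Word) (S T : Finset ℕ)
    (h : ∀ x, x ∈ T ↔ s x ∈ S) :
    (del T w).length = (prs s w).countP fun q => decide (q.1 ∈ S ∧ q.2 ∈ S) := by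
  induction w generalizing s T with
  | nil => rfl
  | cons a w ih =>
    show ((if a.1 ∈ T ∧ a.1 + 1 ∈ T then [(rank T a.1, a.2)] else []) ++
      del (sws a.1 T) w).length = ((s a.1, s (a.1 + 1)) :: prs (s ∘ tr a.1) w).countP _
    have h1 : ∀ x, x ∈ sws a.1 T ↔ (s ∘ tr a.1) x ∈ S := by
      intro x
      rw [mem_sws, h]
      rfl
    rw [List.length_append, ih (s ∘ tr a.1) (sws a.1 T) h1, List.countP_cons]
    by_cases h2 : a.1 ∈ T ∧ a.1 + 1 ∈ T
    · have h3 : s a.1 ∈ S ∧ s (a.1 + 1) ∈ S := ⟨(h _).1 h2.1, (h _).1 h2.2⟩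
      rw [if_pos h2, if_pos (by rw [decide_eq_true_iff]; exact h3), List.length_singleton,
        add_comm]
    · have h3 : ¬(s a.1 ∈ S ∧ s (a.1 + 1) ∈ S) := fun h4 => h2 ⟨(h _).2 h4.1, (h _).2 h4.2⟩
      rw [if_neg h2, if_neg (by rw [decide_eq_true_iff]; exact h3), List.length_nil, zero_add,
        add_zero]

private theorem prs_mem {n : ℕ} (w : Word) (hw : IsWord n w) (s : ℕ → ℕ)
    (hs : ∀ x < n, s x < n) (hi : Function.Injective s) :
    ∀ q ∈ prs s w, q.1 < n ∧ q.2 < n ∧ q.1 ≠ q.2 := by
  induction w generalizing s with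
  | nil =>
    intro q hq
    exact absurd hq List.not_mem_nil
  | cons a w ih =>
    intro q hq
    have ha : a.1 + 1 < n := hw a List.mem_cons_self
    have hq' : q ∈ (s a.1, s (a.1 + 1)) :: prs (s ∘ tr a.1) w := hq
    rcases List.mem_cons.1 hq' with rfl | h
    · exact ⟨hs _ (by omega), hs _ ha, fun h => by have := hi h; omega⟩
    · refine ih (fun b hb => hw b (List.mem_cons_of_mem _ hb)) (s ∘ tr a.1) (fun x hx => ?_)
        (hi.comp (tr a.1).injective) q h
      refine hs _ ?_
      simp only [Equiv.swap_apply_def]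
      split_ifs <;> omega

private theorem sum_countP (F : Finset (Finset ℕ)) (y : Finset ℕ → ℕ) (L : List (ℕ × ℕ)) :
    ∑ S ∈ F, y S * L.countP (fun q => decide (q.1 ∈ S ∧ q.2 ∈ S)) =
      (L.map fun q => ∑ S ∈ F.filter (fun S => q.1 ∈ S ∧ q.2 ∈ S), y S).sum := by
  induction L with
  | nil => exact Finset.sum_eq_zero fun S _ => rfl
  | cons q L ih =>
    rw [List.map_cons, List.sum_cons, ← ih, Finset.sum_filter, ← Finset.sum_add_distrib]
    refine Finset.sum_congr rfl fun S _ => ?_
    rw [List.countP_cons]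
    by_cases h : q.1 ∈ S ∧ q.2 ∈ S
    · rw [if_pos h, if_pos (by rw [decide_eq_true_iff]; exact h), mul_add, mul_one, add_comm]
    · rw [if_neg h, if_neg (by rw [decide_eq_true_iff]; exact h), mul_add, mul_zero, add_comm]

/-- a word is minimal if it can be covered by minimal words of subbraids such that every pair of
strands is covered at most `l` times, and `l` times if the two strands cross in the word -/
theorem cover_min {n l : ℕ} (hl : 0 < l) (w : Word) (hw : IsWord n w) (F : Finset (Finset ℕ))
    (y : Finset ℕ → ℕ) (hmin : ∀ S ∈ F, y S ≠ 0 → Minimal S.card (del S w))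
    (hle : ∀ x < n, ∀ z < n, x ≠ z → ∑ S ∈ F.filter (fun S => x ∈ S ∧ z ∈ S), y S ≤ l)
    (heq : ∀ x < n, ∀ z < n, x ≠ z → del {x, z} w ≠ [] →
      ∑ S ∈ F.filter (fun S => x ∈ S ∧ z ∈ S), y S = l) : Minimal n w := by
  intro w' hw' hv
  have hid : Function.Injective (fun x : ℕ => x) := fun _ _ h => h
  have hlen : ∀ (u : Word) (S : Finset ℕ), (del S u).length =
      (prs (fun x => x) u).countP fun q => decide (q.1 ∈ S ∧ q.2 ∈ S) := fun u S =>
    del_length (fun x => x) u S S fun x => Iff.rfl
  have hsum : ∀ u : Word, ∑ S ∈ F, y S * (del S u).length =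
      ((prs (fun x => x) u).map fun q =>
        ∑ S ∈ F.filter (fun S => q.1 ∈ S ∧ q.2 ∈ S), y S).sum := by
    intro u
    rw [← sum_countP]
    exact Finset.sum_congr rfl fun S _ => by rw [hlen]
  have h1 : ∑ S ∈ F, y S * (del S w').length ≤ l * w'.length := by
    rw [hsum, mul_comm, ← prs_length (fun x => x) w', ← smul_eq_mul, ← List.length_map
      (fun q : ℕ × ℕ => ∑ S ∈ F.filter (fun S => q.1 ∈ S ∧ q.2 ∈ S), y S)]
    refine List.sum_le_card_nsmul _ _ fun t ht => ?_
    rw [List.mem_map] at ht
    obtain ⟨q, hq, rfl⟩ := ht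
    obtain ⟨h2, h3, h4⟩ := prs_mem w' hw' _ (fun x hx => hx) hid q hq
    exact hle _ h2 _ h3 h4
  have h2 : ∑ S ∈ F, y S * (del S w).length = l * w.length := by
    rw [hsum]
    have h3 : ((prs (fun x => x) w).map fun q =>
        ∑ S ∈ F.filter (fun S => q.1 ∈ S ∧ q.2 ∈ S), y S) =
        (prs (fun x => x) w).map fun _ => l := by
      refine List.map_congr_left fun q hq => ?_
      obtain ⟨h2, h3, h4⟩ := prs_mem w hw _ (fun x hx => hx) hid q hq
      refine heq _ h2 _ h3 h4 fun h5 => ?_
      have h6 := hlen w {q.1, q.2}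
      rw [h5, List.length_nil, eq_comm, List.countP_eq_zero] at h6
      refine h6 q hq ?_
      rw [decide_eq_true_iff]
      exact ⟨Finset.mem_insert_self _ _, Finset.mem_insert_of_mem (Finset.mem_singleton_self _)⟩
    rw [h3, List.map_const', List.sum_replicate, prs_length, smul_eq_mul, mul_comm]
  have h3 : ∑ S ∈ F, y S * (del S w).length ≤ ∑ S ∈ F, y S * (del S w').length := by
    refine Finset.sum_le_sum fun S hS => ?_
    rcases eq_or_ne (y S) 0 with h | h
    · rw [h, zero_mul, zero_mul]
    · refine Nat.mul_le_mul_left _ (hmin S hS h (del S w') (del_isWord S w') ?_)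
      exact (del_hom n S.card hw' hw hv S le_rfl).1
  have h4 : l * w.length ≤ l * w'.length := by
    rw [← h2]
    exact h3.trans h1
  exact Nat.le_of_mul_le_mul_left h4 hl

end Pool.Agent.Work.MP_64e010_lc
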