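import Mathlib

/-!
# Minimal braid words, deletion of strands and cabling (FIXED definitions)

Everything is counted from `0`: the positions of the strands are `0, 1, ..., n - 1` and the generator
`σ_i` of the braid group on `n` strands exchanges the positions `i` and `i + 1` (`i + 1 < n`).
A word is a list of letters `(i, true)` (for `σ_i`) and `(i, false)` (for `σ_i⁻¹`), read from left to
right.
-/

set_option autoImplicit false

namespace Pool.Agent.Work.MP_64e010_lc

/-- the index set of the Artin generators of the braid group on `n` strands -/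
def Gen (n : ℕ) : Type := {i : ℕ // i + 1 < n}

/-- the braid relations -/
def rels (n : ℕ) : Set (FreeGroup (Gen n)) :=
  {r | (∃ i j : Gen n, i.1 + 2 ≤ j.1 ∧
      r = FreeGroup.of i * FreeGroup.of j * (FreeGroup.of i)⁻¹ * (FreeGroup.of j)⁻¹) ∨
    ∃ i j : Gen n, j.1 = i.1 + 1 ∧
      r = FreeGroup.of i * FreeGroup.of j * FreeGroup.of i *
        (FreeGroup.of j)⁻¹ * (FreeGroup.of i)⁻¹ * (FreeGroup.of j)⁻¹}

/-- the braid group on `n` strands -/
abbrev B (n : ℕ) : Type := PresentedGroup (rels n)

/-- the generator `σ_i` of the braid group on `n` strands (`1` if `i + 1 < n` does not hold) -/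
def gen (n i : ℕ) : B n := if h : i + 1 < n then PresentedGroup.of ⟨i, h⟩ else 1

/-- words -/
abbrev Word : Type := List (ℕ × Bool)

/-- `w` is a braid word on `n` strands -/
def IsWord (n : ℕ) (w : Word) : Prop := ∀ a ∈ w, a.1 + 1 < n

/-- the value of a letter -/
def lv (n : ℕ) (a : ℕ × Bool) : B n := if a.2 then gen n a.1 else (gen n a.1)⁻¹

/-- the braid represented by a word -/
def val (n : ℕ) (w : Word) : B n := (w.map (lv n)).prod

/-- no shorter word represents the same braid on `n` strands -/
def Minimal (n : ℕ) (w : Word) : Prop :=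
  ∀ w', IsWord n w' → val n w' = val n w → w.length ≤ w'.length

/-! ### deletion of strands -/

/-- the transposition of the positions `i`, `i + 1` -/
abbrev tr (i : ℕ) : Equiv.Perm ℕ := Equiv.swap i (i + 1)

/-- the positions of the kept strands after the letter `σ_i` or `σ_i⁻¹` -/
def sws (i : ℕ) (S : Finset ℕ) : Finset ℕ := S.map (tr i).toEmbedding

/-- the number of kept strands to the left of the position `i` -/
def rank (S : Finset ℕ) (i : ℕ) : ℕ := (S.filter (· < i)).card

/-- the word which remains when all strands are deleted, except those which start at the positions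
in `S` -/
def del : Finset ℕ → Word → Word
  | _, [] => []
  | S, a :: w => (if a.1 ∈ S ∧ a.1 + 1 ∈ S then [(rank S a.1, a.2)] else []) ++ del (sws a.1 S) w

/-- the positions at the end of the word of the strands which start in `S` -/
def fin : Finset ℕ → Word → Finset ℕ
  | S, [] => S
  | S, a :: w => fin (sws a.1 S) w

/-- the inverse word -/
def inv (w : Word) : Word := (w.map fun a => (a.1, !a.2)).reverse

/-! ### cabling -/

/-- the strands of the cable at the position `i` start at the position `off κ i`; `κ j` is the
width of the cable at the position `j` -/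
def off (κ : ℕ → ℕ) (i : ℕ) : ℕ := ∑ j ∈ Finset.range i, κ j

/-- the strand at the position `a` crosses the `q` strands to its right -/
def row (a q : ℕ) : Word := (List.range q).map fun j => (a + j, true)

/-- the `p` parallel strands at the positions `a, ..., a + p - 1` cross the next `q` strands -/
def blk (a : ℕ) : ℕ → ℕ → Word
  | 0, _ => []
  | p + 1, q => row (a + p) q ++ blk a p q

/-- the crossing of two cables of widths `p` (left) and `q` (right), of the given sign -/
def blkw (a p q : ℕ) (ε : Bool) : Word := if ε then blk a p q else inv (blk a q p)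

/-- the cabled word: the strand at the position `j` is replaced by `κ j` parallel strands -/
def cab : (ℕ → ℕ) → Word → Word
  | _, [] => []
  | κ, a :: w => blkw (off κ a.1) (κ a.1) (κ (a.1 + 1)) a.2 ++ cab (κ ∘ tr a.1) w

/-- the weighted number of crossings: a crossing of strands of weights `p`, `q` counts `p * q` -/
def wcost : (ℕ → ℕ) → Word → ℕ
  | _, [] => 0
  | κ, a :: w => κ a.1 * κ (a.1 + 1) + wcost (κ ∘ tr a.1) w

/-- translation by `d` positions to the right -/
def shift (d : ℕ) (w : Word) : Word := w.map fun a => (d + a.1, a.2)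

/-- the braids `g 0, ..., g (m - 1)` inside of the `m` cables -/
def inn (κ : ℕ → ℕ) (g : ℕ → Word) : ℕ → Word
  | 0 => []
  | m + 1 => inn κ g m ++ shift (off κ m) (g m)

/-- the interval of the positions of the cable `j` -/
def iv (κ : ℕ → ℕ) (j : ℕ) : Finset ℕ := Finset.Ico (off κ j) (off κ (j + 1))

/-- the number of elements of `S` in the interval of length `q` which starts at `a` -/
def cnt (S : Finset ℕ) (a q : ℕ) : ℕ := (S ∩ Finset.Ico a (a + q)).card

/-- `T` contains exactly one strand of each of the first `m` cables -/
def Trv (κ : ℕ → ℕ) (m : ℕ) (T : Finset ℕ) : Prop :=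
  T ⊆ Finset.range (off κ m) ∧ ∀ j < m, cnt T (off κ j) (κ j) = 1

/-- `w` has the least weighted number of crossings -/
def WMinimal (m : ℕ) (κ : ℕ → ℕ) (w : Word) : Prop :=
  ∀ w', IsWord m w' → val m w' = val m w → wcost κ w ≤ wcost κ w'

/-! ### colours -/

/-- number of crossings of strands of different colours -/
def inter : (ℕ → ℕ) → Word → ℕ
  | _, [] => 0
  | c, a :: w => (if c a.1 = c (a.1 + 1) then 0 else 1) + inter (c ∘ tr a.1) w

/-- number of crossings of two strands of the colour `j` -/
def intra (j : ℕ) : (ℕ → ℕ) → Word → ℕ
  | _, [] => 0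
  | c, a :: w => (if c a.1 = j ∧ c (a.1 + 1) = j then 1 else 0) + intra j (c ∘ tr a.1) w

/-- weighted number of crossings between kept strands, the colour `j` has the weight `k j` -/
def dcost (k : ℕ → ℕ) : (ℕ → ℕ) → Finset ℕ → Word → ℕ
  | _, _, [] => 0
  | c, T, a :: w => (if a.1 ∈ T ∧ a.1 + 1 ∈ T then k (c a.1) * k (c (a.1 + 1)) else 0) +
      dcost k (c ∘ tr a.1) (sws a.1 T) w

/-- the positions of colour `j` -/
def fib (n : ℕ) (c : ℕ → ℕ) (j : ℕ) : Finset ℕ := (Finset.range n).filter fun x => c x = j

/-- the sets of positions which contain exactly one position of each of the colours `0, ..., m-1` -/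
def Trc (n m : ℕ) (c : ℕ → ℕ) : Finset (Finset ℕ) :=
  ((Finset.range n).powersetCard m).filter fun T => T.image c = Finset.range m

/-- the colour of a position is the number of its cable -/
def c0 (κ : ℕ → ℕ) (m x : ℕ) : ℕ := ((Finset.range m).filter fun j => off κ (j + 1) ≤ x).card

end Pool.Agent.Work.MP_64e010_lc
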