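import Pool.Agent.Work.MP_64e010_lc.Br.Sw

/-!
# Br/DelB (S-M): basic facts on deletion

All by induction on the word (`u` generalizing `S`). `del_inv`: by induction on `u` (or with `List.reverseRecOn`), `inv (a :: u) = inv u ++ [(a.1, !a.2)]`, `del_append`, `fin_append`; put `S' = fin S (inv u)`:
`inv (a :: u)` read from `S` is `inv u`, then the letter `a.1`; the set before this letter is `S₁ = fin S (inv u)`, the final set is `sws a.1 S₁ = S'`, `sws a.1 S' = S₁` (`sws_sws`), and both `a.1, a.1 + 1` are in
`S₁` iff they are in `S'`, `rank S₁ a.1 = rank S' a.1` (`rank_sws_le`).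
-/

set_option autoImplicit false

namespace Pool.Agent.Work.MP_64e010_lc

private theorem inv_cons (a : ℕ × Bool) (u : Word) : inv (a :: u) = inv u ++ [(a.1, !a.2)] := by
  unfold inv
  rw [List.map_cons, List.reverse_cons]

private theorem inv_append (u w : Word) : inv (u ++ w) = inv w ++ inv u := by
  unfold inv
  rw [List.map_append, List.reverse_append]

theorem del_append (S : Finset ℕ) (u w : Word) : del S (u ++ w) = del S u ++ del (fin S u) w := by
  induction u generalizing S with
  | nil => rfl
  | cons a u ih =>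
    show (if a.1 ∈ S ∧ a.1 + 1 ∈ S then [(rank S a.1, a.2)] else []) ++ del (sws a.1 S) (u ++ w) =
      ((if a.1 ∈ S ∧ a.1 + 1 ∈ S then [(rank S a.1, a.2)] else []) ++ del (sws a.1 S) u) ++
        del (fin (sws a.1 S) u) w
    rw [ih, List.append_assoc]

theorem fin_append (S : Finset ℕ) (u w : Word) : fin S (u ++ w) = fin (fin S u) w := by
  induction u generalizing S with
  | nil => rfl
  | cons a u ih => exact ih _

theorem fin_card (S : Finset ℕ) (u : Word) : (fin S u).card = S.card := by
  induction u generalizing S with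
  | nil => rfl
  | cons a u ih =>
    show (fin (sws a.1 S) u).card = S.card
    rw [ih, card_sws]

theorem fin_subset {n : ℕ} {u : Word} (hu : IsWord n u) {S : Finset ℕ} (h : S ⊆ Finset.range n) :
    fin S u ⊆ Finset.range n := by
  induction u generalizing S with
  | nil => exact h
  | cons a u ih =>
    exact ih (fun b hb => hu b (List.mem_cons_of_mem _ hb))
      (sws_subset (hu a List.mem_cons_self) h)

theorem del_isWord (S : Finset ℕ) (u : Word) : IsWord S.card (del S u) := by
  induction u generalizing S with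
  | nil =>
    intro a ha
    exact absurd ha List.not_mem_nil
  | cons a u ih =>
    intro b hb
    have hb' : b ∈ (if a.1 ∈ S ∧ a.1 + 1 ∈ S then [(rank S a.1, a.2)] else []) ++
      del (sws a.1 S) u := hb
    rw [List.mem_append] at hb'
    rcases hb' with h | h
    · by_cases h2 : a.1 ∈ S ∧ a.1 + 1 ∈ S
      · rw [if_pos h2, List.mem_singleton] at h
        have h3 := rank_add_two_le h2.1 h2.2
        rw [h]
        show rank S a.1 + 1 < S.card
        omega
      · rw [if_neg h2] at h
        exact absurd h List.not_mem_nil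
    · have := ih (sws a.1 S) b h
      rwa [card_sws] at this

theorem inv_inv (u : Word) : inv (inv u) = u := by
  unfold inv
  rw [List.map_reverse, List.reverse_reverse, List.map_map]
  have : ((fun a : ℕ × Bool => (a.1, !a.2)) ∘ fun a : ℕ × Bool => (a.1, !a.2)) = id := by
    funext a
    show (a.1, !(!a.2)) = a
    rw [Bool.not_not]
  rw [this, List.map_id]

theorem inv_length (u : Word) : (inv u).length = u.length := by
  unfold inv
  rw [List.length_reverse, List.length_map]

theorem fin_inv (S : Finset ℕ) (u : Word) : fin (fin S (inv u)) u = S := by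
  induction u generalizing S with
  | nil => rfl
  | cons a u ih =>
    rw [inv_cons, fin_append]
    show fin (sws a.1 (sws a.1 (fin S (inv u)))) u = S
    rw [sws_sws, ih]

theorem del_inv (S : Finset ℕ) (u : Word) : del S (inv u) = inv (del (fin S (inv u)) u) := by
  induction u generalizing S with
  | nil => rfl
  | cons a u ih =>
    obtain ⟨S1, hS1⟩ : ∃ S1, S1 = fin S (inv u) := ⟨_, rfl⟩
    rw [inv_cons, del_append, fin_append, ih, ← hS1]
    have e1 : fin S1 [(a.1, !a.2)] = sws a.1 S1 := rfl
    have e2 : del S1 [(a.1, !a.2)] =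
        (if a.1 ∈ S1 ∧ a.1 + 1 ∈ S1 then [(rank S1 a.1, !a.2)] else []) := by
      show (if a.1 ∈ S1 ∧ a.1 + 1 ∈ S1 then [(rank S1 a.1, !a.2)] else []) ++ [] = _
      rw [List.append_nil]
    have e3 : del (sws a.1 S1) (a :: u) =
        (if a.1 ∈ sws a.1 S1 ∧ a.1 + 1 ∈ sws a.1 S1 then [(rank (sws a.1 S1) a.1, a.2)] else []) ++
          del (sws a.1 (sws a.1 S1)) u := rfl
    have hmem : (a.1 ∈ sws a.1 S1 ∧ a.1 + 1 ∈ sws a.1 S1) ↔ (a.1 ∈ S1 ∧ a.1 + 1 ∈ S1) := by
      rw [mem_sws, mem_sws, Equiv.swap_apply_left, Equiv.swap_apply_right, and_comm]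
    rw [e1, e2, e3, sws_sws, rank_sws_le le_rfl, inv_append]
    congr 1
    by_cases h : a.1 ∈ S1 ∧ a.1 + 1 ∈ S1
    · rw [if_pos h, if_pos (hmem.2 h)]
      rfl
    · rw [if_neg h, if_neg fun h' => h (hmem.1 h')]
      rfl

end Pool.Agent.Work.MP_64e010_lc
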