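import Pool.Agent.Work.MP_64e010_lc.Br.DelB
import Pool.Agent.Work.MP_64e010_lc.Br.Blk

/-!
# Br/DelBlk (M): deleting strands from the crossing of two cables

(All statements were checked by computer.) `cnt S a q` is the number of elements of `S` in `[a, a + q)`. `del_row`: induction on `q` for all `a`, `S`, `row a (q+1) = (a, true) :: row (a+1) q`. If `a ∈ S`, `a + 1 ∈ S`: the letter gives `(rank S a, true)`, the set stays (`sws_eq_self`), `rank S (a+1) = rank S a + 1`,
`cnt S (a+1) (q+1) = 1 + cnt S (a+2) q`. If `a ∈ S`, `a + 1 ∉ S`: no letter, `sws a S` contains `a + 1` and not `a`, `rank (sws a S) (a+1) = rank S a`. If `a ∉ S`: `a + 1 ∉ sws a S`, so nothing is written. `fin_row`: the strand at `a` moves to `a + q`, the strands at `a+1, ..., a+q` move one place to the left (induction on `q`).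
`del_blk`, `fin_blk`: induction on `p` for all `S`: `blk a (p+1) q = row (a+p) q ++ blk a p q`; after the row the set `S'` has (`fin_row`) `cnt S' a p = cnt S a p`, `cnt S' (a+p) q = cnt S (a+p+1) q`, `rank S' a = rank S a`, and `del_row` gives
`row (rank S (a+p)) (cnt S (a+p+1) q)` if `a + p ∈ S` (with `rank S (a+p) = rank S a + cnt S a p`, `cnt S a (p+1) = cnt S a p + 1`), nothing otherwise.
-/

set_option autoImplicit false

namespace Pool.Agent.Work.MP_64e010_lc

private theorem row_cons (a q : ℕ) : row a (q + 1) = (a, true) :: row (a + 1) q := by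
  unfold row
  rw [List.range_succ_eq_map, List.map_cons, List.map_map]
  congr 1
  refine List.map_congr_left fun j _ => ?_
  show (a + (j + 1), true) = (a + 1 + j, true)
  rw [Nat.add_right_comm, add_assoc]

private theorem row_zero (a : ℕ) : row a 0 = [] := rfl

private theorem cnt_congr {S S' : Finset ℕ} {a p : ℕ}
    (h : ∀ x, a ≤ x → x < a + p → (x ∈ S' ↔ x ∈ S)) : cnt S' a p = cnt S a p := by
  unfold cnt
  congr 1
  ext x
  rw [Finset.mem_inter, Finset.mem_inter, Finset.mem_Ico]
  constructor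
  · rintro ⟨h1, h2, h3⟩
    exact ⟨(h x h2 h3).1 h1, h2, h3⟩
  · rintro ⟨h1, h2, h3⟩
    exact ⟨(h x h2 h3).2 h1, h2, h3⟩

private theorem cnt_shift {S S' : Finset ℕ} {b q : ℕ}
    (h : ∀ x, b ≤ x → x < b + q → (x ∈ S' ↔ x + 1 ∈ S)) : cnt S' b q = cnt S (b + 1) q := by
  unfold cnt
  have h1 : S ∩ Finset.Ico (b + 1) (b + 1 + q) =
      (S' ∩ Finset.Ico b (b + q)).map (addRightEmbedding 1) := by
    ext y
    rw [Finset.mem_inter, Finset.mem_Ico, Finset.mem_map]
    constructor
    · rintro ⟨h1, h2, h3⟩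
      obtain ⟨x, rfl⟩ : ∃ x, y = x + 1 := ⟨y - 1, by omega⟩
      refine ⟨x, ?_, rfl⟩
      rw [Finset.mem_inter, Finset.mem_Ico]
      exact ⟨(h x (by omega) (by omega)).2 h1, by omega, by omega⟩
    · rintro ⟨x, hx, rfl⟩
      rw [Finset.mem_inter, Finset.mem_Ico] at hx
      show x + 1 ∈ S ∧ b + 1 ≤ x + 1 ∧ x + 1 < b + 1 + q
      exact ⟨(h x hx.2.1 hx.2.2).1 hx.1, by omega, by omega⟩
  rw [h1, Finset.card_map]

private theorem rank_congr {S S' : Finset ℕ} {a : ℕ} (h : ∀ x, x < a → (x ∈ S' ↔ x ∈ S)) :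
    rank S' a = rank S a := by
  unfold rank
  congr 1
  ext x
  rw [Finset.mem_filter, Finset.mem_filter]
  constructor
  · rintro ⟨h1, h2⟩
    exact ⟨(h x h2).1 h1, h2⟩
  · rintro ⟨h1, h2⟩
    exact ⟨(h x h2).2 h1, h2⟩

theorem rank_add_cnt (S : Finset ℕ) (a p : ℕ) : rank S (a + p) = rank S a + cnt S a p := by
  unfold rank cnt
  have h1 : S.filter (· < a + p) = S.filter (· < a) ∪ (S ∩ Finset.Ico a (a + p)) := by
    ext x
    rw [Finset.mem_union, Finset.mem_filter, Finset.mem_filter, Finset.mem_inter, Finset.mem_Ico]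
    constructor
    · rintro ⟨h1, h2⟩
      rcases Nat.lt_or_ge x a with h3 | h3
      · exact Or.inl ⟨h1, h3⟩
      · exact Or.inr ⟨h1, h3, h2⟩
    · rintro (⟨h1, h2⟩ | ⟨h1, h2, h3⟩)
      · exact ⟨h1, by omega⟩
      · exact ⟨h1, h3⟩
  rw [h1, Finset.card_union_of_disjoint]
  rw [Finset.disjoint_left]
  intro x hx hx'
  rw [Finset.mem_filter] at hx
  rw [Finset.mem_inter, Finset.mem_Ico] at hx'
  omega

private theorem cnt_zero (S : Finset ℕ) (a : ℕ) : cnt S a 0 = 0 := by
  have h := rank_add_cnt S a 0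
  rw [add_zero] at h
  omega

private theorem cnt_right (S : Finset ℕ) (a p : ℕ) :
    cnt S a (p + 1) = cnt S a p + if a + p ∈ S then 1 else 0 := by
  have h := rank_add_cnt S a p
  have h' := rank_add_cnt S a (p + 1)
  have h'' := rank_succ S (a + p)
  rw [← add_assoc, h'', h] at h'
  omega

private theorem cnt_left (S : Finset ℕ) (a p : ℕ) :
    cnt S a (p + 1) = (if a ∈ S then 1 else 0) + cnt S (a + 1) p := by
  have h := rank_add_cnt S (a + 1) p
  have h' := rank_add_cnt S a (p + 1)
  have h'' := rank_succ S a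
  have e : a + (p + 1) = a + 1 + p := by omega
  rw [e, h, h''] at h'
  omega

private theorem cnt_sws (S : Finset ℕ) (a q : ℕ) : cnt (sws a S) (a + 2) q = cnt S (a + 2) q := by
  have h := rank_add_cnt S (a + 2) q
  have h' := rank_add_cnt (sws a S) (a + 2) q
  rw [rank_sws_ge (by omega), rank_sws_ge (by omega), h] at h'
  omega

private theorem del_cons (S : Finset ℕ) (a : ℕ × Bool) (w : Word) :
    del S (a :: w) = (if a.1 ∈ S ∧ a.1 + 1 ∈ S then [(rank S a.1, a.2)] else []) ++
      del (sws a.1 S) w := rfl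

private theorem fin_cons (S : Finset ℕ) (a : ℕ × Bool) (w : Word) :
    fin S (a :: w) = fin (sws a.1 S) w := rfl

private theorem mem_sws_l (a : ℕ) (S : Finset ℕ) : a ∈ sws a S ↔ a + 1 ∈ S := by
  rw [mem_sws, Equiv.swap_apply_left]

private theorem mem_sws_r (a : ℕ) (S : Finset ℕ) : a + 1 ∈ sws a S ↔ a ∈ S := by
  rw [mem_sws, Equiv.swap_apply_right]

private theorem mem_sws_o {a x : ℕ} (S : Finset ℕ) (h1 : x ≠ a) (h2 : x ≠ a + 1) :
    x ∈ sws a S ↔ x ∈ S := by
  rw [mem_sws, Equiv.swap_apply_of_ne_of_ne h1 h2]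

theorem del_row (S : Finset ℕ) (a q : ℕ) :
    del S (row a q) = if a ∈ S then row (rank S a) (cnt S (a + 1) q) else [] := by
  induction q generalizing a S with
  | zero =>
    rw [row_zero, cnt_zero, row_zero]
    split_ifs <;> rfl
  | succ q ih =>
    rw [row_cons, del_cons]
    show (if a ∈ S ∧ a + 1 ∈ S then [(rank S a, true)] else []) ++
      del (sws a S) (row (a + 1) q) = _
    rw [ih]
    by_cases ha : a ∈ S
    · rw [if_pos ((mem_sws_r a S).2 ha), if_pos ha]
      have hr : rank (sws a S) (a + 1) = rank S a + if a + 1 ∈ S then 1 else 0 := by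
        rw [rank_succ, rank_sws_le le_rfl]
        congr 1
        by_cases h1 : a + 1 ∈ S
        · rw [if_pos h1, if_pos ((mem_sws_l a S).2 h1)]
        · rw [if_neg h1, if_neg fun h => h1 ((mem_sws_l a S).1 h)]
      have hc : cnt S (a + 1) (q + 1) = (if a + 1 ∈ S then 1 else 0) + cnt S (a + 2) q :=
        cnt_left S (a + 1) q
      have hs : cnt (sws a S) (a + 1 + 1) q = cnt S (a + 2) q := cnt_sws S a q
      rw [hr, hc, hs]
      by_cases h1 : a + 1 ∈ S
      · rw [if_pos ⟨ha, h1⟩, if_pos h1, add_comm 1 (cnt S (a + 2) q), row_cons]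
        rfl
      · rw [if_neg (fun h => h1 h.2), if_neg h1, add_zero, zero_add]
        rfl
    · rw [if_neg (fun h => ha h.1), if_neg (fun h => ha ((mem_sws_r a S).1 h)), if_neg ha]
      rfl

theorem mem_fin_row (S : Finset ℕ) (a q x : ℕ) :
    x ∈ fin S (row a q) ↔ if a ≤ x ∧ x < a + q then x + 1 ∈ S else if x = a + q then a ∈ S
      else x ∈ S := by
  induction q generalizing a S with
  | zero =>
    rw [row_zero, if_neg (by omega), add_zero]
    show x ∈ S ↔ _
    by_cases h : x = a
    · rw [if_pos h, h]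
    · rw [if_neg h]
  | succ q ih =>
    rw [row_cons, fin_cons]
    show x ∈ fin (sws a S) (row (a + 1) q) ↔ _
    rw [ih]
    rcases Nat.lt_trichotomy x (a + 1 + q) with h1 | h1 | h1
    · rcases Nat.lt_trichotomy x a with h2 | h2 | h2
      · rw [if_neg (by omega), if_neg (by omega), if_neg (by omega), if_neg (by omega),
          mem_sws_o S (by omega) (by omega)]
      · rw [if_neg (by omega), if_neg (by omega), if_pos (by omega), h2, mem_sws_l]
      · rw [if_pos (by omega), if_pos (by omega), mem_sws_o S (by omega) (by omega)]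
    · rw [if_neg (by omega), if_pos h1, if_neg (by omega), if_pos (by omega), mem_sws_r]
    · rw [if_neg (by omega), if_neg (by omega), if_neg (by omega), if_neg (by omega),
        mem_sws_o S (by omega) (by omega)]

private theorem blk_succ (a p q : ℕ) : blk a (p + 1) q = row (a + p) q ++ blk a p q := rfl

private theorem fr_lt {S : Finset ℕ} {b q x : ℕ} (h : x < b) : x ∈ fin S (row b q) ↔ x ∈ S := by
  rw [mem_fin_row, if_neg (by omega), if_neg (by omega)]

private theorem fr_mid {S : Finset ℕ} {b q x : ℕ} (h : b ≤ x) (h' : x < b + q) :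
    x ∈ fin S (row b q) ↔ x + 1 ∈ S := by
  rw [mem_fin_row, if_pos ⟨h, h'⟩]

theorem del_blk (S : Finset ℕ) (a p q : ℕ) :
    del S (blk a p q) = blk (rank S a) (cnt S a p) (cnt S (a + p) q) := by
  induction p generalizing S with
  | zero =>
    rw [cnt_zero]
    rfl
  | succ p ih =>
    have e1 : rank (fin S (row (a + p) q)) a = rank S a :=
      rank_congr fun x hx => fr_lt (by omega)
    have e2 : cnt (fin S (row (a + p) q)) a p = cnt S a p :=
      cnt_congr fun x _ hx => fr_lt hx
    have e3 : cnt (fin S (row (a + p) q)) (a + p) q = cnt S (a + p + 1) q :=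
      cnt_shift fun x hx hx' => fr_mid hx hx'
    rw [blk_succ, del_append, ih, e1, e2, e3, del_row, cnt_right, ← add_assoc]
    by_cases h : a + p ∈ S
    · rw [if_pos h, if_pos h, blk_succ, rank_add_cnt]
    · rw [if_neg h, if_neg h, add_zero]
      rfl

theorem mem_fin_blk (S : Finset ℕ) (a p q x : ℕ) :
    x ∈ fin S (blk a p q) ↔ if a ≤ x ∧ x < a + q then x + p ∈ S
      else if a + q ≤ x ∧ x < a + q + p then x - q ∈ S else x ∈ S := by
  induction p generalizing S with
  | zero =>
    show x ∈ S ↔ _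
    by_cases h : a ≤ x ∧ x < a + q
    · rw [if_pos h, add_zero]
    · rw [if_neg h, if_neg (by omega)]
  | succ p ih =>
    rw [blk_succ, fin_append, ih]
    by_cases h1 : a ≤ x ∧ x < a + q
    · rw [if_pos h1, if_pos h1, fr_mid (by omega) (by omega), add_assoc]
    · rw [if_neg h1, if_neg h1]
      by_cases h2 : a + q ≤ x ∧ x < a + q + p
      · rw [if_pos h2, if_pos (by omega), fr_lt (by omega)]
      · rw [if_neg h2, mem_fin_row]
        by_cases h3 : x = a + p + q
        · have e : x - q = a + p := by omega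
          rw [if_neg (by omega), if_pos h3, if_pos (by omega), e]
        · rw [if_neg (by omega), if_neg h3, if_neg (by omega)]

end Pool.Agent.Work.MP_64e010_lc
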