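import Pool.Agent.Work.MP_64e010_lc.Br.DelBlk
import Pool.Agent.Work.MP_64e010_lc.Br.CabHom

/-!
# Br/DelCab (M): deleting strands from a cabled word

(Checked by computer.) `del_blkw`: positive: `del_blk`. Negative: `blkw a p q false = inv (blk a q p)`; with `S' = fin S (inv (blk a q p))` (so `fin S' (blk a q p) = S`, `fin_inv`) `del_inv` gives `inv (blk (rank S' a) (cnt S' a q) (cnt S' (a+q) p))`, and by `mem_fin_blk` for `S'` (with `p`, `q` exchanged):
`cnt S' a q = cnt S (a+p) q`, `cnt S' (a+q) p = cnt S a p`, `rank S' a = rank S a` (no element `< a` is moved). `mem_fin_blkw`: the same for the final set, in both cases it is the set described in `mem_fin_blk`.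
`trv_step`: `Trv κ m T`, `i + 1 < m`, `T' = fin T (blkw (off κ i) (κ i) (κ (i+1)) ε)`: `Trv (κ ∘ tr i) m T'` (the counts of the cables `i`, `i+1` are exchanged, the others do not change; `off_tr_le`, `off_tr_succ`, `off_tr_ge`), `rank T (off κ i) = i` (`rank_add_cnt`, induction on `i`), so the deletion of the block is
`blk i 1 1 = [(i, true)]` or its inverse `[(i, false)]`. `del_cab`: induction on `w`. `del_cab_iv`: induction on `w`: for `S = iv κ j` one of the two counts is `0` (`blk _ 0 _ = []`, `blk _ _ 0` has length `0`), so nothing is written, and the final set of the block is `iv (κ ∘ tr i) (tr i j)` (`tr i j < m`).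
-/

set_option autoImplicit false

namespace Pool.Agent.Work.MP_64e010_lc

/-- the description of the final set of a crossing of cables -/
private def Fd (S S' : Finset ℕ) (a p q : ℕ) : Prop :=
  ∀ x, x ∈ S' ↔ if a ≤ x ∧ x < a + q then x + p ∈ S
      else if a + q ≤ x ∧ x < a + q + p then x - q ∈ S else x ∈ S

private theorem fd_out {S S' : Finset ℕ} {a p q : ℕ} (h : Fd S S' a p q) {x : ℕ}
    (hx : x < a ∨ a + p + q ≤ x) : x ∈ S' ↔ x ∈ S := by
  have h1 := h x
  rw [if_neg (by omega), if_neg (by omega)] at h1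
  exact h1

private theorem fd_left {S S' : Finset ℕ} {a p q : ℕ} (h : Fd S S' a p q) {x : ℕ}
    (hx : a ≤ x) (hx' : x < a + q) : x ∈ S' ↔ x + p ∈ S := by
  have h1 := h x
  rw [if_pos ⟨hx, hx'⟩] at h1
  exact h1

private theorem fd_right {S S' : Finset ℕ} {a p q : ℕ} (h : Fd S S' a p q) {x : ℕ}
    (hx : a + q ≤ x) (hx' : x < a + q + p) : x ∈ S' ↔ x - q ∈ S := by
  have h1 := h x
  rw [if_neg (by omega), if_pos ⟨hx, hx'⟩] at h1
  exact h1

private theorem fd_symm {S S' : Finset ℕ} {a p q : ℕ} (h : Fd S S' a p q) : Fd S' S a q p := by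
  intro x
  by_cases h1 : a ≤ x ∧ x < a + p
  · rw [if_pos h1, fd_right h (by omega) (by omega), Nat.add_sub_cancel]
  · rw [if_neg h1]
    by_cases h2 : a + p ≤ x ∧ x < a + p + q
    · rw [if_pos h2, fd_left h (by omega) (by omega), Nat.sub_add_cancel (by omega)]
    · rw [if_neg h2, fd_out h (by omega)]

private theorem fd_blkw (S : Finset ℕ) (a p q : ℕ) (ε : Bool) :
    Fd S (fin S (blkw a p q ε)) a p q := by
  cases ε
  · have h1 : Fd (fin S (inv (blk a q p))) (fin (fin S (inv (blk a q p))) (blk a q p)) a q p :=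
      fun x => mem_fin_blk _ a q p x
    rw [fin_inv] at h1
    exact fd_symm h1
  · exact fun x => mem_fin_blk S a p q x

private theorem cnt_eq' (S : Finset ℕ) (b r : ℕ) :
    cnt S b r = ((Finset.range r).filter fun t => b + t ∈ S).card := by
  unfold cnt
  have h1 : S ∩ Finset.Ico b (b + r) =
      ((Finset.range r).filter fun t => b + t ∈ S).image fun t => b + t := by
    ext x
    rw [Finset.mem_inter, Finset.mem_Ico, Finset.mem_image]
    constructor
    · rintro ⟨h2, h3, h4⟩
      refine ⟨x - b, ?_, by omega⟩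
      rw [Finset.mem_filter, Finset.mem_range]
      have h5 : b + (x - b) = x := by omega
      rw [h5]
      exact ⟨by omega, h2⟩
    · rintro ⟨t, h2, rfl⟩
      rw [Finset.mem_filter, Finset.mem_range] at h2
      exact ⟨h2.2, by omega, by omega⟩
  rw [h1, Finset.card_image_of_injective _ (add_right_injective b)]

private theorem cnt_congr {S S' : Finset ℕ} {b b' r : ℕ}
    (h : ∀ t < r, b + t ∈ S ↔ b' + t ∈ S') : cnt S b r = cnt S' b' r := by
  rw [cnt_eq', cnt_eq']
  congr 1
  ext t
  rw [Finset.mem_filter, Finset.mem_filter, Finset.mem_range]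
  constructor
  · rintro ⟨h1, h2⟩
    exact ⟨h1, (h t h1).1 h2⟩
  · rintro ⟨h1, h2⟩
    exact ⟨h1, (h t h1).2 h2⟩

private theorem fd_cnt_left {S S' : Finset ℕ} {a p q : ℕ} (h : Fd S S' a p q) :
    cnt S' a q = cnt S (a + p) q := by
  refine cnt_congr fun t ht => ?_
  rw [fd_left h (by omega) (by omega), add_right_comm]

private theorem fd_cnt_right {S S' : Finset ℕ} {a p q : ℕ} (h : Fd S S' a p q) :
    cnt S' (a + q) p = cnt S a p := by
  refine cnt_congr fun t ht => ?_
  have h1 : a + q + t - q = a + t := by omega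
  rw [fd_right h (by omega) (by omega), h1]

private theorem fd_cnt_out {S S' : Finset ℕ} {a p q b r : ℕ} (h : Fd S S' a p q)
    (hb : b + r ≤ a ∨ a + p + q ≤ b) : cnt S' b r = cnt S b r := by
  refine cnt_congr fun t ht => ?_
  rw [fd_out h (by omega)]

private theorem fd_rank {S S' : Finset ℕ} {a p q : ℕ} (h : Fd S S' a p q) :
    rank S' a = rank S a := by
  unfold rank
  congr 1
  ext x
  rw [Finset.mem_filter, Finset.mem_filter]
  constructor
  · rintro ⟨h1, h2⟩
    exact ⟨(fd_out h (Or.inl h2)).1 h1, h2⟩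
  · rintro ⟨h1, h2⟩
    exact ⟨(fd_out h (Or.inl h2)).2 h1, h2⟩

private theorem blk_zero (a p : ℕ) : blk a p 0 = [] := by
  induction p with
  | zero => rfl
  | succ p ih =>
    show row (a + p) 0 ++ blk a p 0 = []
    rw [ih]
    rfl

private theorem blkw_zero (a p q : ℕ) (ε : Bool) (h : p = 0 ∨ q = 0) : blkw a p q ε = [] := by
  unfold blkw
  cases ε
  · rw [if_neg Bool.false_ne_true]
    rcases h with rfl | rfl
    · rw [blk_zero]
      rfl
    · rfl
  · rw [if_pos rfl]
    rcases h with rfl | rfl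
    · rfl
    · rw [blk_zero]

private theorem rank_off {κ : ℕ → ℕ} {m : ℕ} {T : Finset ℕ} (hT : Trv κ m T) (i : ℕ)
    (hi : i ≤ m) : rank T (off κ i) = i := by
  induction i with
  | zero =>
    have h0 : off κ 0 = 0 := by
      unfold off
      rw [Finset.range_zero, Finset.sum_empty]
    rw [h0]
    unfold rank
    rw [Finset.card_eq_zero, Finset.filter_eq_empty_iff]
    intro x _
    exact Nat.not_lt_zero x
  | succ i ih =>
    rw [off_succ, rank_add_cnt, ih (by omega), hT.2 i (by omega)]

private theorem fd_iv {κ : ℕ → ℕ} {i j : ℕ} {S' : Finset ℕ}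
    (h : Fd (iv κ j) S' (off κ i) (κ i) (κ (i + 1))) : S' = iv (κ ∘ tr i) (tr i j) := by
  have e1 := off_succ κ i
  have e2 := off_succ κ (i + 1)
  have e2' : off κ (i + 2) = off κ (i + 1) + κ (i + 1) := off_succ κ (i + 1)
  have f0 := off_tr_le κ (le_refl i)
  have f1 := off_tr_succ κ i
  have f2 := off_tr_ge κ (le_refl (i + 2))
  ext x
  rw [h x]
  rcases lt_trichotomy j i with hj | rfl | hj
  · have g1 : tr i j = j := Equiv.swap_apply_of_ne_of_ne (by omega) (by omega)
    have g2 := off_mono κ (show j + 1 ≤ i from hj)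
    have g3 := off_mono κ (show j ≤ j + 1 by omega)
    rw [g1]
    unfold iv
    rw [off_tr_le κ (show j ≤ i by omega), off_tr_le κ (show j + 1 ≤ i by omega)]
    split_ifs <;> simp only [Finset.mem_Ico] <;> omega
  · have g1 : tr j j = j + 1 := Equiv.swap_apply_left _ _
    rw [g1]
    unfold iv
    rw [f1, f2]
    split_ifs <;> simp only [Finset.mem_Ico] <;> omega
  · rcases eq_or_ne j (i + 1) with rfl | hne
    · have g1 : tr i (i + 1) = i := Equiv.swap_apply_right _ _
      rw [g1]
      unfold iv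
      rw [f0, f1]
      split_ifs <;> simp only [Finset.mem_Ico] <;> omega
    · have g1 : tr i j = j := Equiv.swap_apply_of_ne_of_ne (by omega) (by omega)
      have g2 := off_mono κ (show i + 1 + 1 ≤ j by omega)
      have g3 := off_mono κ (show j ≤ j + 1 by omega)
      rw [g1]
      unfold iv
      rw [off_tr_ge κ (show i + 2 ≤ j by omega), off_tr_ge κ (show i + 2 ≤ j + 1 by omega)]
      split_ifs <;> simp only [Finset.mem_Ico] <;> omega

private theorem cnt_iv {κ : ℕ → ℕ} {j b r : ℕ}
    (h : b + r ≤ off κ j ∨ off κ (j + 1) ≤ b) : cnt (iv κ j) b r = 0 := by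
  unfold cnt
  rw [Finset.card_eq_zero, Finset.eq_empty_iff_forall_notMem]
  intro x hx
  unfold iv at hx
  rw [Finset.mem_inter, Finset.mem_Ico, Finset.mem_Ico] at hx
  omega

theorem del_blkw (S : Finset ℕ) (a p q : ℕ) (ε : Bool) :
    del S (blkw a p q ε) = blkw (rank S a) (cnt S a p) (cnt S (a + p) q) ε := by
  cases ε
  · have h := fd_blkw S a p q false
    show del S (inv (blk a q p)) = inv (blk (rank S a) (cnt S (a + p) q) (cnt S a p))
    rw [del_inv, del_blk]
    have h' : Fd S (fin S (inv (blk a q p))) a p q := h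
    rw [fd_rank h', fd_cnt_left h', fd_cnt_right h']
  · exact del_blk S a p q

theorem mem_fin_blkw (S : Finset ℕ) (a p q x : ℕ) (ε : Bool) :
    x ∈ fin S (blkw a p q ε) ↔ if a ≤ x ∧ x < a + q then x + p ∈ S
      else if a + q ≤ x ∧ x < a + q + p then x - q ∈ S else x ∈ S := by
  exact fd_blkw S a p q ε x

theorem trv_step {κ : ℕ → ℕ} {m i : ℕ} {T : Finset ℕ} (hT : Trv κ m T) (hi : i + 1 < m) (ε : Bool) :
    del T (blkw (off κ i) (κ i) (κ (i + 1)) ε) = [(i, ε)] ∧
      Trv (κ ∘ tr i) m (fin T (blkw (off κ i) (κ i) (κ (i + 1)) ε)) := by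
  have e1 := off_succ κ i
  have e2 := off_succ κ (i + 1)
  have e2' : off κ (i + 2) = off κ (i + 1) + κ (i + 1) := off_succ κ (i + 1)
  have f0 := off_tr_le κ (le_refl i)
  have f1 := off_tr_succ κ i
  have f2 := off_tr_ge κ (show i + 2 ≤ m by omega)
  have f3 := off_mono κ (show i + 1 + 1 ≤ m by omega)
  have hF := fd_blkw T (off κ i) (κ i) (κ (i + 1)) ε
  refine ⟨?_, ?_, fun j hj => ?_⟩
  · rw [del_blkw, rank_off hT i (by omega), hT.2 i (by omega), ← off_succ, hT.2 (i + 1) hi]
    cases ε <;> rfl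
  · intro x hx
    rw [Finset.mem_range, f2]
    by_cases h1 : x < off κ i ∨ off κ i + κ i + κ (i + 1) ≤ x
    · exact Finset.mem_range.1 (hT.1 ((fd_out hF h1).1 hx))
    · omega
  · rcases lt_trichotomy j i with h | rfl | h
    · have g1 : tr i j = j := Equiv.swap_apply_of_ne_of_ne (by omega) (by omega)
      have g2 := off_mono κ (show j + 1 ≤ i from h)
      have g3 := off_succ κ j
      rw [off_tr_le κ (show j ≤ i by omega), Function.comp_apply, g1,
        fd_cnt_out hF (by omega), hT.2 j hj]
    · rw [f0, Function.comp_apply, Equiv.swap_apply_left, fd_cnt_left hF, ← off_succ, hT.2 _ hi]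
    · rcases eq_or_ne j (i + 1) with rfl | hne
      · rw [f1, Function.comp_apply, Equiv.swap_apply_right, fd_cnt_right hF, hT.2 i (by omega)]
      · have g1 : tr i j = j := Equiv.swap_apply_of_ne_of_ne (by omega) (by omega)
        have g2 := off_mono κ (show i + 1 + 1 ≤ j by omega)
        rw [off_tr_ge κ (show i + 2 ≤ j by omega), Function.comp_apply, g1,
          fd_cnt_out hF (by omega), hT.2 j hj]

theorem del_cab {κ : ℕ → ℕ} {m : ℕ} {T : Finset ℕ} (hT : Trv κ m T) {w : Word} (hw : IsWord m w) :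
    del T (cab κ w) = w := by
  induction w generalizing κ T with
  | nil => rfl
  | cons a w ih =>
    have ha : a.1 + 1 < m := hw a List.mem_cons_self
    show del T (blkw (off κ a.1) (κ a.1) (κ (a.1 + 1)) a.2 ++ cab (κ ∘ tr a.1) w) = a :: w
    obtain ⟨h1, h2⟩ := trv_step hT ha a.2
    rw [del_append, h1, ih h2 fun b hb => hw b (List.mem_cons_of_mem _ hb)]
    rfl

theorem del_cab_iv {κ : ℕ → ℕ} {m j : ℕ} (hj : j < m) {w : Word} (hw : IsWord m w) :
    del (iv κ j) (cab κ w) = [] := by
  induction w generalizing κ j with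
  | nil => rfl
  | cons a w ih =>
    have ha : a.1 + 1 < m := hw a List.mem_cons_self
    show del (iv κ j) (blkw (off κ a.1) (κ a.1) (κ (a.1 + 1)) a.2 ++ cab (κ ∘ tr a.1) w) = []
    have e1 := off_succ κ a.1
    have e2 := off_succ κ (a.1 + 1)
    have hj' : tr a.1 j < m := by
      simp only [Equiv.swap_apply_def]
      split_ifs <;> omega
    rw [del_append, fd_iv (fd_blkw (iv κ j) (off κ a.1) (κ a.1) (κ (a.1 + 1)) a.2),
      ih hj' fun b hb => hw b (List.mem_cons_of_mem _ hb), List.append_nil, del_blkw]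
    refine blkw_zero _ _ _ _ ?_
    rcases lt_trichotomy j a.1 with h | rfl | h
    · left
      have g2 := off_mono κ (show j + 1 ≤ a.1 from h)
      exact cnt_iv (by omega)
    · right
      exact cnt_iv (by omega)
    · left
      have g2 := off_mono κ (show a.1 + 1 ≤ j from h)
      exact cnt_iv (by omega)

end Pool.Agent.Work.MP_64e010_lc
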