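import Pool.Agent.Work.MP_64e010_lc.Br.Defs

/-!
# Br/ValB (S): basic facts on the value of a word

`gen_braid`, `gen_comm`: the relators are `1` in the presented group (`PresentedGroup.one_of_mem` or `mk_eq_one_iff`), rewrite with `mul_inv_eq_one`; the images of `FreeGroup.of i` are `PresentedGroup.of i` by definition.
`even_of_val`: the homomorphism `B n →* Multiplicative ℤ` (`PresentedGroup.toGroup`, every generator goes to `ofAdd 1`) gives equality of the exponent sums `∑ (±1)`, and the length has the parity of the exponent sum (induction).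
-/

set_option autoImplicit false

namespace Pool.Agent.Work.MP_64e010_lc

private theorem gen_coe {n : ℕ} (I : Gen n) :
    gen n I.1 = PresentedGroup.mk (rels n) (FreeGroup.of I) := by
  unfold gen
  rw [dif_pos I.2]
  rfl

theorem val_nil (n : ℕ) : val n [] = 1 := by
  rfl

theorem val_cons (n : ℕ) (a : ℕ × Bool) (w : Word) : val n (a :: w) = lv n a * val n w := by
  unfold val
  rw [List.map_cons, List.prod_cons]

theorem val_append (n : ℕ) (u w : Word) : val n (u ++ w) = val n u * val n w := by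
  unfold val
  rw [List.map_append, List.prod_append]

theorem val_inv (n : ℕ) (u : Word) : val n (inv u) = (val n u)⁻¹ := by
  induction u with
  | nil =>
    show (1 : B n) = 1⁻¹
    rw [inv_one]
  | cons a u ih =>
    have h1 : inv (a :: u) = inv u ++ [(a.1, !a.2)] := by
      unfold inv
      rw [List.map_cons, List.reverse_cons]
    have h2 : lv n (a.1, !a.2) = (lv n a)⁻¹ := by
      obtain ⟨i, e⟩ := a
      cases e
      · show gen n i = ((gen n i)⁻¹)⁻¹
        rw [_root_.inv_inv]
      · rfl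
    have h3 : val n [(a.1, !a.2)] = lv n (a.1, !a.2) := by
      rw [val_cons, val_nil, mul_one]
    rw [h1, val_append, h3, h2, ih, val_cons, mul_inv_rev]

theorem gen_comm {n i j : ℕ} (h : i + 2 ≤ j) : gen n i * gen n j = gen n j * gen n i := by
  by_cases hj : j + 1 < n
  · have hi : i + 1 < n := by omega
    obtain ⟨I, rfl⟩ : ∃ I : Gen n, I.1 = i := ⟨⟨i, hi⟩, rfl⟩
    obtain ⟨J, rfl⟩ : ∃ J : Gen n, J.1 = j := ⟨⟨j, hj⟩, rfl⟩
    have h1 : (PresentedGroup.mk (rels n)) (FreeGroup.of I * FreeGroup.of J *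
        (FreeGroup.of I)⁻¹ * (FreeGroup.of J)⁻¹) = 1 :=
      PresentedGroup.one_of_mem (Or.inl ⟨I, J, h, rfl⟩)
    rw [map_mul, map_mul, map_mul, map_inv, map_inv, ← gen_coe, ← gen_coe] at h1
    rw [mul_inv_eq_one, mul_inv_eq_iff_eq_mul] at h1
    exact h1
  · have gj : gen n j = 1 := by
      unfold gen
      rw [dif_neg hj]
    rw [gj, mul_one, one_mul]

theorem gen_braid {n i : ℕ} (h : i + 2 < n) :
    gen n i * gen n (i + 1) * gen n i = gen n (i + 1) * gen n i * gen n (i + 1) := by
  obtain ⟨I, rfl⟩ : ∃ I : Gen n, I.1 = i := ⟨⟨i, by omega⟩, rfl⟩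
  obtain ⟨J, hJ⟩ : ∃ J : Gen n, J.1 = I.1 + 1 := ⟨⟨I.1 + 1, by omega⟩, rfl⟩
  have h1 : (PresentedGroup.mk (rels n)) (FreeGroup.of I * FreeGroup.of J * FreeGroup.of I *
      (FreeGroup.of J)⁻¹ * (FreeGroup.of I)⁻¹ * (FreeGroup.of J)⁻¹) = 1 :=
    PresentedGroup.one_of_mem (Or.inr ⟨I, J, hJ, rfl⟩)
  rw [map_mul, map_mul, map_mul, map_mul, map_mul, map_inv, map_inv, ← gen_coe, ← gen_coe] at h1
  rw [mul_inv_eq_one, mul_inv_eq_iff_eq_mul, mul_inv_eq_iff_eq_mul] at h1
  rw [← hJ]
  exact h1

theorem isWord_append {n : ℕ} {u w : Word} : IsWord n (u ++ w) ↔ IsWord n u ∧ IsWord n w := by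
  unfold IsWord
  constructor
  · intro h
    exact ⟨fun a ha => h a (List.mem_append_left _ ha), fun a ha => h a (List.mem_append_right _ ha)⟩
  · rintro ⟨h1, h2⟩ a ha
    rcases List.mem_append.1 ha with h | h
    · exact h1 a h
    · exact h2 a h

theorem even_of_val {n : ℕ} {u w : Word} (hu : IsWord n u) (hw : IsWord n w)
    (h : val n u = val n w) : Even (u.length + w.length) := by
  have key : ∀ r ∈ rels n, FreeGroup.lift
      (fun _ : Gen n => Multiplicative.ofAdd (1 : ℤ)) r = 1 := by
    rintro r (⟨i, j, -, rfl⟩ | ⟨i, j, -, rfl⟩)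
    · simp only [map_mul, map_inv, FreeGroup.lift_apply_of]
      rfl
    · simp only [map_mul, map_inv, FreeGroup.lift_apply_of]
      rfl
  obtain ⟨φ, hφ⟩ : ∃ φ : B n →* Multiplicative ℤ, ∀ i : Gen n,
      φ (PresentedGroup.of i) = Multiplicative.ofAdd (1 : ℤ) :=
    ⟨PresentedGroup.toGroup key, fun i => PresentedGroup.toGroup.of key⟩
  have hlen : ∀ v : Word, IsWord n v →
      Even (Multiplicative.toAdd (φ (val n v)) + (v.length : ℤ)) := by
    intro v
    induction v with
    | nil =>
      intro _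
      rw [val_nil, map_one]
      exact ⟨0, rfl⟩
    | cons a v ih =>
      intro hv
      have h1 := ih fun b hb => hv b (List.mem_cons_of_mem _ hb)
      have ha : a.1 + 1 < n := hv a List.mem_cons_self
      have hg : φ (gen n a.1) = Multiplicative.ofAdd (1 : ℤ) := by
        unfold gen
        rw [dif_pos ha]
        exact hφ _
      rw [val_cons, map_mul, toAdd_mul, List.length_cons]
      obtain ⟨i, e⟩ := a
      cases e
      · have h2 : φ (lv n (i, false)) = (Multiplicative.ofAdd (1 : ℤ))⁻¹ := by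
          show φ ((gen n i)⁻¹) = _
          rw [map_inv, hg]
        rw [h2, toAdd_inv, toAdd_ofAdd]
        obtain ⟨r, hr⟩ := h1
        refine ⟨r, ?_⟩
        push_cast
        linarith
      · have h2 : φ (lv n (i, true)) = Multiplicative.ofAdd (1 : ℤ) := hg
        rw [h2, toAdd_ofAdd]
        obtain ⟨r, hr⟩ := h1
        refine ⟨r + 1, ?_⟩
        push_cast
        linarith
  have h1 := hlen u hu
  have h2 := hlen w hw
  rw [h] at h1
  obtain ⟨r, hr⟩ := h1
  obtain ⟨q, hq⟩ := h2
  have h3 : Even (((u.length + w.length : ℕ)) : ℤ) := by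
    refine ⟨r + q - Multiplicative.toAdd (φ (val n w)), ?_⟩
    push_cast
    linarith
  exact_mod_cast h3

end Pool.Agent.Work.MP_64e010_lc
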