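import Pool.Agent.Work.MP_64e010_lc.Br.DelB
import Pool.Agent.Work.MP_64e010_lc.Br.ValB

/-!
# Br/DelHom (M): deletion of strands is well defined on braids

Let `X = {S : Finset ℕ // S.card ≤ k} × B k`. For `i : Gen n` let `A i : Equiv.Perm X`, `A i (S, b) = (sws i S, b * o)` with `o = gen k (rank S i)` if `i ∈ S` and `i + 1 ∈ S`, `o = 1` otherwise; the inverse is `(S, b) ↦ (sws i S, b * o⁻¹)`, with the same
`o` because `i, i + 1 ∈ S ↔ i, i + 1 ∈ sws i S` and `rank (sws i S) i = rank S i`. The map `i ↦ MulOpposite.op (A i)` satisfies the braid relations in `(Equiv.Perm X)ᵐᵒᵖ`: (1) `i + 2 ≤ j`: `sws_comm`, `rank (sws i S) j = rank S j`,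
`rank (sws j S) i = rank S i`, membership unchanged; if both pairs are in `S` then `rank S j ≥ rank S i + 2` (`rank_succ`, `rank_mono`), so the generators commute (`gen_comm`). (2) `j = i + 1`: `sws_braid`; distinguish the eight cases `i, i+1, i+2 ∈ S`: if all three are in `S`,
`r = rank S i`, both sides give `σ_r σ_{r+1} σ_r = σ_{r+1} σ_r σ_{r+1}` (`gen_braid`, `r + 2 < k` since `S.card ≤ k`); if exactly two are in `S` both sides give `σ_r`, `r = rank S i`; otherwise both sides give `1`. So `PresentedGroup.toGroup` gives a homomorphism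
`B n →* (Equiv.Perm X)ᵐᵒᵖ`, and for a word `w` with `IsWord n w` the permutation of `val n w` sends `(S, b)` to `(fin S w, b * val k (del S w))` (induction on `w`).
-/

set_option autoImplicit false

namespace Pool.Agent.Work.MP_64e010_lc

/-- the letter which remains after deletion of the strands outside of `S` -/
private noncomputable def crs (k : ℕ) (S : Finset ℕ) (i : ℕ) : B k :=
  if S.card ≤ k ∧ i ∈ S ∧ i + 1 ∈ S then gen k (rank S i) else 1

private theorem tr_self (i : ℕ) : tr i i = i + 1 := Equiv.swap_apply_left _ _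

private theorem tr_succ (i : ℕ) : tr i (i + 1) = i := Equiv.swap_apply_right _ _

private theorem tr_ne {i x : ℕ} (h1 : x ≠ i) (h2 : x ≠ i + 1) : tr i x = x :=
  Equiv.swap_apply_of_ne_of_ne h1 h2

private theorem mem_sws_self {i : ℕ} {S : Finset ℕ} : i ∈ sws i S ↔ i + 1 ∈ S := by
  rw [mem_sws, tr_self]

private theorem mem_sws_succ {i : ℕ} {S : Finset ℕ} : i + 1 ∈ sws i S ↔ i ∈ S := by
  rw [mem_sws, tr_succ]

private theorem mem_sws_ne {i x : ℕ} {S : Finset ℕ} (h1 : x ≠ i) (h2 : x ≠ i + 1) :
    x ∈ sws i S ↔ x ∈ S := by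
  rw [mem_sws, tr_ne h1 h2]


private theorem crs_eq {k i m : ℕ} {S : Finset ℕ} {P : Prop} [Decidable P] (hc : S.card ≤ k)
    (hP : (i ∈ S ∧ i + 1 ∈ S) ↔ P) (hm : rank S i = m) :
    crs k S i = if P then gen k m else 1 := by
  unfold crs
  by_cases h : P
  · rw [if_pos h, if_pos ⟨hc, hP.2 h⟩, hm]
  · rw [if_neg h, if_neg fun h' => h (hP.1 h'.2)]

private theorem crs_of_lt {k i : ℕ} {S : Finset ℕ} (hc : ¬ S.card ≤ k) : crs k S i = 1 := by
  unfold crs
  rw [if_neg fun h => hc h.1]

private theorem crs_congr {k i : ℕ} {S T : Finset ℕ} (h : T.card = S.card)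
    (hP : (i ∈ T ∧ i + 1 ∈ T) ↔ (i ∈ S ∧ i + 1 ∈ S)) (hm : rank T i = rank S i) :
    crs k T i = crs k S i := by
  by_cases hc : S.card ≤ k
  · rw [crs_eq (by rw [h]; exact hc) hP hm, crs_eq hc Iff.rfl rfl]
  · rw [crs_of_lt hc, crs_of_lt (by rw [h]; exact hc)]

private theorem crs_sws (k : ℕ) (S : Finset ℕ) (i : ℕ) : crs k (sws i S) i = crs k S i :=
  crs_congr (card_sws _ _) (by rw [mem_sws_self, mem_sws_succ, and_comm]) (rank_sws_le le_rfl S)

/-- the action of a generator -/
private noncomputable def act (k i : ℕ) : Equiv.Perm (Finset ℕ × B k) where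
  toFun z := (sws i z.1, z.2 * crs k z.1 i)
  invFun z := (sws i z.1, z.2 * (crs k z.1 i)⁻¹)
  left_inv z := by
    rcases z with ⟨S, b⟩
    simp only [sws_sws, crs_sws, mul_inv_cancel_right]
  right_inv z := by
    rcases z with ⟨S, b⟩
    simp only [sws_sws, crs_sws, inv_mul_cancel_right]

private theorem act_apply (k i : ℕ) (S : Finset ℕ) (b : B k) :
    act k i (S, b) = (sws i S, b * crs k S i) := rfl

private theorem act_symm_apply (k i : ℕ) (S : Finset ℕ) (b : B k) :
    (act k i)⁻¹ (S, b) = (sws i S, b * (crs k S i)⁻¹) := rfl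

private theorem crs_comm {k i j : ℕ} (h : i + 2 ≤ j) (S : Finset ℕ) :
    crs k S i * crs k (sws i S) j = crs k S j * crs k (sws j S) i := by
  have e1 : crs k (sws i S) j = crs k S j :=
    crs_congr (card_sws _ _) (by rw [mem_sws_ne (by omega) (by omega),
      mem_sws_ne (by omega) (by omega)]) (rank_sws_ge h S)
  have e2 : crs k (sws j S) i = crs k S i :=
    crs_congr (card_sws _ _) (by rw [mem_sws_ne (by omega) (by omega),
      mem_sws_ne (by omega) (by omega)]) (rank_sws_le (by omega) S)
  rw [e1, e2]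
  unfold crs
  by_cases h1 : S.card ≤ k ∧ i ∈ S ∧ i + 1 ∈ S
  · by_cases h2 : S.card ≤ k ∧ j ∈ S ∧ j + 1 ∈ S
    · rw [if_pos h1, if_pos h2]
      have r1 := rank_succ S i
      have r2 := rank_succ S (i + 1)
      rw [if_pos h1.2.1] at r1
      rw [if_pos h1.2.2] at r2
      have r3 : rank S (i + 1 + 1) ≤ rank S j := rank_mono S (by omega)
      exact gen_comm (by omega)
    · rw [if_neg h2, mul_one, one_mul]
  · rw [if_neg h1, mul_one, one_mul]

private theorem crs_braid {k i : ℕ} (S : Finset ℕ) :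
    crs k S i * crs k (sws i S) (i + 1) * crs k (sws (i + 1) (sws i S)) i =
      crs k S (i + 1) * crs k (sws (i + 1) S) i * crs k (sws i (sws (i + 1) S)) (i + 1) := by
  by_cases hc : S.card ≤ k
  swap
  · have c1 : ∀ i j, ¬ (sws i (sws j S)).card ≤ k := fun i j => by
      rw [card_sws, card_sws]
      exact hc
    have c2 : ∀ i, ¬ (sws i S).card ≤ k := fun i => by
      rw [card_sws]
      exact hc
    rw [crs_of_lt hc, crs_of_lt hc, crs_of_lt (c2 _), crs_of_lt (c2 _), crs_of_lt (c1 _ _),
      crs_of_lt (c1 _ _)]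
  have a0 : crs k S i = if i ∈ S ∧ i + 1 ∈ S then gen k (rank S i) else 1 :=
    crs_eq hc Iff.rfl rfl
  have a1 : crs k (sws i S) (i + 1) =
      if i ∈ S ∧ i + 2 ∈ S then gen k (rank S i + if i + 1 ∈ S then 1 else 0) else 1 := by
    refine crs_eq (by rw [card_sws]; exact hc)
      (by rw [mem_sws_succ, mem_sws_ne (by omega) (by omega)]) ?_
    rw [rank_succ, rank_sws_le le_rfl]
    by_cases h : i + 1 ∈ S
    · rw [if_pos h, if_pos (mem_sws_self.2 h)]
    · rw [if_neg h, if_neg fun h' => h (mem_sws_self.1 h')]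
  have a2 : crs k (sws (i + 1) (sws i S)) i =
      if i + 1 ∈ S ∧ i + 2 ∈ S then gen k (rank S i) else 1 := by
    refine crs_eq (by rw [card_sws, card_sws]; exact hc)
      (by rw [mem_sws_ne (by omega) (by omega), mem_sws_self, mem_sws_self,
        mem_sws_ne (by omega) (by omega)]) ?_
    rw [rank_sws_le (by omega), rank_sws_le le_rfl]
  have b0 : crs k S (i + 1) =
      if i + 1 ∈ S ∧ i + 2 ∈ S then gen k (rank S i + if i ∈ S then 1 else 0) else 1 :=
    crs_eq hc Iff.rfl (rank_succ S i)
  have b1 : crs k (sws (i + 1) S) i =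
      if i ∈ S ∧ i + 2 ∈ S then gen k (rank S i) else 1 := by
    refine crs_eq (by rw [card_sws]; exact hc)
      (by rw [mem_sws_ne (by omega) (by omega), mem_sws_self]) ?_
    rw [rank_sws_le (by omega)]
  have b2 : crs k (sws i (sws (i + 1) S)) (i + 1) =
      if i ∈ S ∧ i + 1 ∈ S then gen k (rank S i + if i + 2 ∈ S then 1 else 0) else 1 := by
    refine crs_eq (by rw [card_sws, card_sws]; exact hc)
      (by rw [mem_sws_succ, mem_sws_ne (by omega) (by omega),
        mem_sws_ne (by omega) (by omega), mem_sws_succ]) ?_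
    rw [rank_succ, rank_sws_le le_rfl, rank_sws_le (by omega)]
    by_cases h : i + 2 ∈ S
    · rw [if_pos h, if_pos (mem_sws_self.2 (mem_sws_self.2 h))]
    · rw [if_neg h, if_neg fun h' => h (mem_sws_self.1 (mem_sws_self.1 h'))]
  rw [a0, a1, a2, b0, b1, b2]
  by_cases p : i ∈ S <;> by_cases q : i + 1 ∈ S <;> by_cases r : i + 2 ∈ S <;>
    simp only [p, q, r, and_true, and_false, true_and, false_and, if_true, if_false, mul_one,
      one_mul, add_zero, and_self]
  have r1 := rank_succ S i
  have r2 := rank_succ S (i + 1)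
  have r3 := rank_succ S (i + 2)
  rw [if_pos p] at r1
  rw [if_pos q] at r2
  rw [if_pos r] at r3
  have r4 : rank S (i + 2 + 1) ≤ S.card := Finset.card_filter_le _ _
  have r5 : i + 1 + 1 = i + 2 := rfl
  rw [r5] at r2
  exact gen_braid (by omega)

private theorem act_comm {k i j : ℕ} (h : i + 2 ≤ j) : act k j * act k i = act k i * act k j := by
  ext1 z
  rcases z with ⟨S, b⟩
  rw [Equiv.Perm.mul_apply, Equiv.Perm.mul_apply, act_apply, act_apply, act_apply, act_apply,
    sws_comm h, mul_assoc, mul_assoc, crs_comm h]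

private theorem act_braid (k i : ℕ) :
    act k i * act k (i + 1) * act k i = act k (i + 1) * act k i * act k (i + 1) := by
  ext1 z
  rcases z with ⟨S, b⟩
  rw [Equiv.Perm.mul_apply, Equiv.Perm.mul_apply, Equiv.Perm.mul_apply, Equiv.Perm.mul_apply,
    act_apply, act_apply, act_apply, act_apply, act_apply, act_apply, sws_braid, mul_assoc b,
    mul_assoc b, crs_braid, ← mul_assoc b, ← mul_assoc b]

private noncomputable def gact (n k : ℕ) (i : Gen n) : (Equiv.Perm (Finset ℕ × B k))ᵐᵒᵖ :=
  MulOpposite.op (act k i.1)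

private theorem gact_rels (n k : ℕ) : ∀ r ∈ rels n, FreeGroup.lift (gact n k) r = 1 := by
  rintro r (⟨i, j, hij, rfl⟩ | ⟨i, j, hij, rfl⟩)
  · simp only [map_mul, map_inv, FreeGroup.lift_apply_of]
    rw [mul_inv_eq_one, mul_inv_eq_iff_eq_mul]
    unfold gact
    rw [← MulOpposite.op_mul, ← MulOpposite.op_mul, act_comm hij]
  · simp only [map_mul, map_inv, FreeGroup.lift_apply_of]
    rw [mul_inv_eq_one, mul_inv_eq_iff_eq_mul, mul_inv_eq_iff_eq_mul]
    unfold gact
    rw [← MulOpposite.op_mul, ← MulOpposite.op_mul, ← MulOpposite.op_mul, ← MulOpposite.op_mul,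
      hij, ← mul_assoc, ← mul_assoc, act_braid]

private noncomputable def hact (n k : ℕ) : B n →* (Equiv.Perm (Finset ℕ × B k))ᵐᵒᵖ :=
  PresentedGroup.toGroup (gact_rels n k)

private theorem hact_val (n k : ℕ) : ∀ (w : Word), IsWord n w → ∀ (S : Finset ℕ) (b : B k),
    S.card ≤ k → MulOpposite.unop (hact n k (val n w)) (S, b) =
      (fin S w, b * val k (del S w)) := by
  intro w
  induction w with
  | nil =>
    intro _ S b _
    rw [val_nil, map_one, MulOpposite.unop_one, Equiv.Perm.one_apply]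
    change (S, b) = (S, b * val k [])
    rw [val_nil, mul_one]
  | cons a w ih =>
    intro hw S b hS
    have ha : a.1 + 1 < n := hw a List.mem_cons_self
    have hw' : IsWord n w := fun x hx => hw x (List.mem_cons_of_mem _ hx)
    rw [val_cons, map_mul, MulOpposite.unop_mul, Equiv.Perm.mul_apply]
    have e1 : val k (del S (a :: w)) = (if a.2 then crs k S a.1 else (crs k S a.1)⁻¹) *
        val k (del (sws a.1 S) w) := by
      rw [del, val_append]
      congr 1
      by_cases h : a.1 ∈ S ∧ a.1 + 1 ∈ S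
      · have e0 : crs k S a.1 = gen k (rank S a.1) := by
          unfold crs
          rw [if_pos ⟨hS, h⟩]
        rw [if_pos h, val_cons, val_nil, mul_one, e0]
        rfl
      · have e0 : crs k S a.1 = 1 := by
          unfold crs
          rw [if_neg fun h' => h h'.2]
        rw [if_neg h, val_nil, e0, inv_one, ite_self]
    have e2 : MulOpposite.unop (hact n k (lv n a)) (S, b) =
        (sws a.1 S, b * (if a.2 then crs k S a.1 else (crs k S a.1)⁻¹)) := by
      have e3 : hact n k (gen n a.1) = MulOpposite.op (act k a.1) := by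
        unfold gen hact
        rw [dif_pos ha, PresentedGroup.toGroup.of]
        rfl
      unfold lv
      cases a.2
      · simp only [Bool.false_eq_true, if_false]
        rw [map_inv, e3, ← MulOpposite.op_inv, MulOpposite.unop_op, act_symm_apply]
      · simp only [if_true]
        rw [e3, MulOpposite.unop_op, act_apply]
    rw [e2, ih hw' _ _ (by rw [card_sws]; exact hS), e1, mul_assoc]
    rfl

theorem del_hom (n k : ℕ) {u w : Word} (hu : IsWord n u) (hw : IsWord n w)
    (h : val n u = val n w) (S : Finset ℕ) (hS : S.card ≤ k) :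
    val k (del S u) = val k (del S w) ∧ fin S u = fin S w := by
  have h1 := hact_val n k u hu S 1 hS
  have h2 := hact_val n k w hw S 1 hS
  rw [h, h2, one_mul, one_mul] at h1
  exact ⟨(Prod.ext_iff.1 h1).2.symm, (Prod.ext_iff.1 h1).1.symm⟩

end Pool.Agent.Work.MP_64e010_lc
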