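import Pool.Agent.Work.MP_64e010_lc.Br.DelBlk
import Pool.Agent.Work.MP_64e010_lc.Br.CabHom

/-!
# Br/DelInn (S-M): deleting strands from the braids inside of the cables

`inn κ g m` has letters in the intervals of the cables. Let `u = shift (off κ j) (g j)`, all its letters `i` satisfy `off κ j ≤ i`, `i + 1 < off κ (j+1)`. (1) For such a word and any `S`: `x ∉ [off κ j, off κ (j+1))` is in `fin S u` iff it is in `S`, and `cnt (fin S u) (off κ j) (κ j) = cnt S (off κ j) (κ j)` (the letters permute the interval). So `Trv` is preserved. If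
`cnt S (off κ j) (κ j) ≤ 1` nothing is written: `del S u = []` (two different elements of the interval are never both in the set). (2) `S = iv κ j`: all positions of the interval are in `S`, `sws` does not change it (`sws_eq_self`), `rank S (off κ j + i) = i`, so `del S u = g j`; for `j' ≠ j` no position of `iv κ j'` is in `iv κ j`, so `shift (off κ j') (g j')`
writes nothing and does not change the set. Induct on `m` with `del_append`, `fin_append`.
`inn_hom`: `i ↦ gen n (off κ j + i)` defines a homomorphism `B (κ j) →* B n` (`PresentedGroup.toGroup`, `gen_comm`, `gen_braid`, `off κ (j+1) ≤ n`), so `val n (shift (off κ j) u)` depends only on `val (κ j) u`.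
-/

set_option autoImplicit false

namespace Pool.Agent.Work.MP_64e010_lc

private theorem shift_cons (d : ℕ) (a : ℕ × Bool) (u : Word) :
    shift d (a :: u) = (d + a.1, a.2) :: shift d u := by
  rfl

private theorem mem_fin_out {d q : ℕ} {u : Word} (hu : IsWord q u) (S : Finset ℕ) {x : ℕ}
    (hx : x < d ∨ d + q ≤ x) : x ∈ fin S (shift d u) ↔ x ∈ S := by
  induction u generalizing S with
  | nil => exact Iff.rfl
  | cons a u ih =>
    have ha : a.1 + 1 < q := hu a List.mem_cons_self
    rw [shift_cons]
    show x ∈ fin (sws (d + a.1) S) (shift d u) ↔ x ∈ S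
    rw [ih (fun b hb => hu b (List.mem_cons_of_mem _ hb)), mem_sws,
      Equiv.swap_apply_of_ne_of_ne (by omega) (by omega)]

private theorem cnt_sws {d q i : ℕ} (hi : i + 1 < q) (S : Finset ℕ) :
    cnt (sws (d + i) S) d q = cnt S d q := by
  unfold cnt
  have h1 : sws (d + i) S ∩ Finset.Ico d (d + q) = sws (d + i) (S ∩ Finset.Ico d (d + q)) := by
    ext x
    rw [Finset.mem_inter, mem_sws, mem_sws, Finset.mem_inter, Finset.mem_Ico, Finset.mem_Ico]
    have h2 : (d ≤ x ∧ x < d + q) ↔ (d ≤ tr (d + i) x ∧ tr (d + i) x < d + q) := by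
      simp only [Equiv.swap_apply_def]
      split_ifs <;> omega
    rw [h2]
  rw [h1, card_sws]

private theorem cnt_fin_in {d q : ℕ} {u : Word} (hu : IsWord q u) (S : Finset ℕ) :
    cnt (fin S (shift d u)) d q = cnt S d q := by
  induction u generalizing S with
  | nil => rfl
  | cons a u ih =>
    have ha : a.1 + 1 < q := hu a List.mem_cons_self
    rw [shift_cons]
    show cnt (fin (sws (d + a.1) S) (shift d u)) d q = cnt S d q
    rw [ih (fun b hb => hu b (List.mem_cons_of_mem _ hb)), cnt_sws ha]

private theorem del_cnt_le {d q : ℕ} {u : Word} (hu : IsWord q u) (S : Finset ℕ)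
    (hS : cnt S d q ≤ 1) : del S (shift d u) = [] := by
  induction u generalizing S with
  | nil => rfl
  | cons a u ih =>
    have ha : a.1 + 1 < q := hu a List.mem_cons_self
    rw [shift_cons]
    show (if d + a.1 ∈ S ∧ d + a.1 + 1 ∈ S then [(rank S (d + a.1), a.2)] else []) ++
      del (sws (d + a.1) S) (shift d u) = []
    rw [ih (fun b hb => hu b (List.mem_cons_of_mem _ hb)) _ (by rw [cnt_sws ha]; exact hS),
      if_neg, List.append_nil]
    rintro ⟨h1, h2⟩
    have h3 : ({d + a.1, d + a.1 + 1} : Finset ℕ) ⊆ S ∩ Finset.Ico d (d + q) := by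
      intro x hx
      rw [Finset.mem_insert, Finset.mem_singleton] at hx
      rw [Finset.mem_inter, Finset.mem_Ico]
      rcases hx with rfl | rfl
      · exact ⟨h1, by omega, by omega⟩
      · exact ⟨h2, by omega, by omega⟩
    have h4 := Finset.card_le_card h3
    rw [Finset.card_pair (by omega)] at h4
    unfold cnt at hS
    omega

private theorem fin_empty {d q : ℕ} {u : Word} (hu : IsWord q u) (S : Finset ℕ)
    (hS : ∀ x, d ≤ x → x < d + q → x ∉ S) : fin S (shift d u) = S := by
  induction u with
  | nil => rfl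
  | cons a u ih =>
    have ha : a.1 + 1 < q := hu a List.mem_cons_self
    rw [shift_cons]
    show fin (sws (d + a.1) S) (shift d u) = S
    have h1 : d + a.1 ∉ S := hS _ (by omega) (by omega)
    have h2 : d + a.1 + 1 ∉ S := hS _ (by omega) (by omega)
    rw [sws_eq_self ⟨fun h => absurd h h1, fun h => absurd h h2⟩,
      ih fun b hb => hu b (List.mem_cons_of_mem _ hb)]

private theorem del_full {d q : ℕ} {u : Word} (hu : IsWord q u) :
    del (Finset.Ico d (d + q)) (shift d u) = u ∧
      fin (Finset.Ico d (d + q)) (shift d u) = Finset.Ico d (d + q) := by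
  induction u with
  | nil => exact ⟨rfl, rfl⟩
  | cons a u ih =>
    have ha : a.1 + 1 < q := hu a List.mem_cons_self
    obtain ⟨ih1, ih2⟩ := ih fun b hb => hu b (List.mem_cons_of_mem _ hb)
    have h1 : d + a.1 ∈ Finset.Ico d (d + q) := Finset.mem_Ico.2 ⟨by omega, by omega⟩
    have h2 : d + a.1 + 1 ∈ Finset.Ico d (d + q) := Finset.mem_Ico.2 ⟨by omega, by omega⟩
    have h3 : sws (d + a.1) (Finset.Ico d (d + q)) = Finset.Ico d (d + q) :=
      sws_eq_self ⟨fun _ => h2, fun _ => h1⟩
    have h4 : rank (Finset.Ico d (d + q)) (d + a.1) = a.1 := by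
      unfold rank
      have h5 : (Finset.Ico d (d + q)).filter (· < d + a.1) = Finset.Ico d (d + a.1) := by
        ext x
        rw [Finset.mem_filter, Finset.mem_Ico, Finset.mem_Ico]
        constructor
        · rintro ⟨⟨h6, h7⟩, h8⟩
          exact ⟨h6, h8⟩
        · rintro ⟨h6, h8⟩
          exact ⟨⟨h6, by omega⟩, h8⟩
      rw [h5, Nat.card_Ico]
      omega
    rw [shift_cons]
    constructor
    · show (if d + a.1 ∈ Finset.Ico d (d + q) ∧ d + a.1 + 1 ∈ Finset.Ico d (d + q) then
        [(rank (Finset.Ico d (d + q)) (d + a.1), a.2)] else []) ++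
        del (sws (d + a.1) (Finset.Ico d (d + q))) (shift d u) = a :: u
      rw [if_pos ⟨h1, h2⟩, h3, h4, ih1]
      rfl
    · show fin (sws (d + a.1) (Finset.Ico d (d + q))) (shift d u) = _
      rw [h3, ih2]

private theorem cnt_fin_inn {κ : ℕ → ℕ} {g : ℕ → Word} (m : ℕ)
    (hg : ∀ j < m, IsWord (κ j) (g j)) (T : Finset ℕ) (j : ℕ) :
    cnt (fin T (inn κ g m)) (off κ j) (κ j) = cnt T (off κ j) (κ j) := by
  induction m with
  | zero => rfl
  | succ m ih =>
    have hm := hg m (Nat.lt_succ_self m)
    rw [← ih fun i hi => hg i (Nat.lt_succ_of_lt hi)]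
    show cnt (fin T (inn κ g m ++ shift (off κ m) (g m))) (off κ j) (κ j) = _
    rw [fin_append]
    generalize fin T (inn κ g m) = S
    rcases eq_or_ne j m with rfl | hne
    · exact cnt_fin_in hm S
    · unfold cnt
      congr 1
      ext x
      rw [Finset.mem_inter, Finset.mem_inter, Finset.mem_Ico]
      constructor
      · rintro ⟨h1, h2⟩
        refine ⟨(mem_fin_out hm S ?_).1 h1, h2⟩
        rcases lt_or_gt_of_ne hne with h | h
        · left
          have h3 := off_mono κ (show j + 1 ≤ m from h)
          rw [off_succ] at h3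
          omega
        · right
          have h3 := off_mono κ (show m + 1 ≤ j from h)
          rw [off_succ] at h3
          omega
      · rintro ⟨h1, h2⟩
        refine ⟨(mem_fin_out hm S ?_).2 h1, h2⟩
        rcases lt_or_gt_of_ne hne with h | h
        · left
          have h3 := off_mono κ (show j + 1 ≤ m from h)
          rw [off_succ] at h3
          omega
        · right
          have h3 := off_mono κ (show m + 1 ≤ j from h)
          rw [off_succ] at h3
          omega

private theorem gen_coe {n : ℕ} (I : Gen n) : gen n I.1 = PresentedGroup.of I := by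
  unfold gen
  rw [dif_pos I.2]
  rfl

private theorem val_shift_hom {q d N : ℕ} (hN : d + q ≤ N) :
    ∃ φ : B q →* B N, ∀ u, IsWord q u → val N (shift d u) = φ (val q u) := by
  have key : ∀ r ∈ rels q, FreeGroup.lift (fun i : Gen q => gen N (d + i.1)) r = 1 := by
    rintro r (⟨i, j, hij, rfl⟩ | ⟨i, j, hij, rfl⟩)
    · simp only [map_mul, map_inv, FreeGroup.lift_apply_of]
      rw [mul_inv_eq_one, mul_inv_eq_iff_eq_mul]
      exact gen_comm (by omega)
    · have hj := j.2
      simp only [map_mul, map_inv, FreeGroup.lift_apply_of]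
      rw [mul_inv_eq_one, mul_inv_eq_iff_eq_mul, mul_inv_eq_iff_eq_mul, hij, ← add_assoc]
      exact gen_braid (by omega)
  refine ⟨PresentedGroup.toGroup key, fun u => ?_⟩
  have hgen : ∀ i : ℕ, i + 1 < q → PresentedGroup.toGroup key (gen q i) = gen N (d + i) := by
    intro i hi
    obtain ⟨I, rfl⟩ : ∃ I : Gen q, I.1 = i := ⟨⟨i, hi⟩, rfl⟩
    rw [gen_coe]
    exact PresentedGroup.toGroup.of key
  induction u with
  | nil =>
    intro _
    show val N [] = _
    rw [val_nil, val_nil, map_one]
  | cons a u ih =>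
    intro hu
    have ha : a.1 + 1 < q := hu a List.mem_cons_self
    rw [shift_cons, val_cons, val_cons, map_mul, ih fun b hb => hu b (List.mem_cons_of_mem _ hb)]
    congr 1
    obtain ⟨i, e⟩ := a
    cases e
    · show (gen N (d + i))⁻¹ = PresentedGroup.toGroup key ((gen q i)⁻¹)
      rw [map_inv, hgen i ha]
    · show gen N (d + i) = PresentedGroup.toGroup key (gen q i)
      rw [hgen i ha]

private theorem inn_hom' {κ : ℕ → ℕ} {g g' : ℕ → Word} (N m : ℕ) (hN : off κ m ≤ N)
    (hg : ∀ j < m, IsWord (κ j) (g j))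
    (hg' : ∀ j < m, IsWord (κ j) (g' j)) (h : ∀ j < m, val (κ j) (g j) = val (κ j) (g' j)) :
    val N (inn κ g m) = val N (inn κ g' m) := by
  induction m with
  | zero => rfl
  | succ m ih =>
    have h1 := off_succ κ m
    show val N (inn κ g m ++ shift (off κ m) (g m)) = val N (inn κ g' m ++ shift (off κ m) (g' m))
    obtain ⟨φ, hφ⟩ := val_shift_hom (q := κ m) (d := off κ m) (N := N) (by omega)
    rw [val_append, val_append, ih (by omega) (fun i hi => hg i (Nat.lt_succ_of_lt hi))
      (fun i hi => hg' i (Nat.lt_succ_of_lt hi)) (fun i hi => h i (Nat.lt_succ_of_lt hi)),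
      hφ _ (hg m (Nat.lt_succ_self m)), hφ _ (hg' m (Nat.lt_succ_self m)),
      h m (Nat.lt_succ_self m)]

private theorem del_inn_iv' {κ : ℕ → ℕ} {g : ℕ → Word} (m j : ℕ)
    (hg : ∀ j < m, IsWord (κ j) (g j)) :
    del (iv κ j) (inn κ g m) = (if j < m then g j else []) ∧
      fin (iv κ j) (inn κ g m) = iv κ j := by
  induction m with
  | zero => exact ⟨by rw [if_neg (by omega)]; rfl, rfl⟩
  | succ m ih =>
    obtain ⟨ih1, ih2⟩ := ih fun i hi => hg i (Nat.lt_succ_of_lt hi)
    have hm := hg m (Nat.lt_succ_self m)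
    show del (iv κ j) (inn κ g m ++ shift (off κ m) (g m)) = _ ∧
      fin (iv κ j) (inn κ g m ++ shift (off κ m) (g m)) = _
    rw [del_append, fin_append, ih1, ih2]
    rcases eq_or_ne j m with rfl | hne
    · have h1 : iv κ j = Finset.Ico (off κ j) (off κ j + κ j) := by
        unfold iv
        rw [off_succ]
      rw [h1, (del_full hm).1, (del_full hm).2, if_neg (lt_irrefl j),
        if_pos (Nat.lt_succ_self j), List.nil_append]
      exact ⟨rfl, rfl⟩
    · have hemp : ∀ x, off κ m ≤ x → x < off κ m + κ m → x ∉ iv κ j := by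
        intro x hx1 hx2 hx3
        unfold iv at hx3
        rw [Finset.mem_Ico] at hx3
        rcases lt_or_gt_of_ne hne with h | h
        · have h3 := off_mono κ (show j + 1 ≤ m from h)
          omega
        · have h3 := off_mono κ (show m + 1 ≤ j from h)
          rw [off_succ] at h3
          omega
      have hcnt : cnt (iv κ j) (off κ m) (κ m) ≤ 1 := by
        unfold cnt
        have : iv κ j ∩ Finset.Ico (off κ m) (off κ m + κ m) = ∅ := by
          rw [Finset.eq_empty_iff_forall_notMem]
          intro x hx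
          rw [Finset.mem_inter, Finset.mem_Ico] at hx
          exact hemp x hx.2.1 hx.2.2 hx.1
        rw [this, Finset.card_empty]
        exact Nat.zero_le 1
      rw [del_cnt_le hm _ hcnt, fin_empty hm _ hemp, List.append_nil]
      refine ⟨?_, rfl⟩
      by_cases h : j < m
      · rw [if_pos h, if_pos (by omega)]
      · rw [if_neg h, if_neg (by omega)]

theorem inn_isWord {κ : ℕ → ℕ} {g : ℕ → Word} {m : ℕ} (hg : ∀ j < m, IsWord (κ j) (g j)) :
    IsWord (off κ m) (inn κ g m) := by
  induction m with
  | zero =>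
    intro a ha
    exact absurd ha List.not_mem_nil
  | succ m ih =>
    have h1 := off_succ κ m
    intro a ha
    have ha' : a ∈ inn κ g m ++ shift (off κ m) (g m) := ha
    rw [List.mem_append] at ha'
    rcases ha' with h | h
    · have := ih (fun i hi => hg i (Nat.lt_succ_of_lt hi)) a h
      omega
    · unfold shift at h
      rw [List.mem_map] at h
      obtain ⟨b, hb, rfl⟩ := h
      have := hg m (Nat.lt_succ_self m) b hb
      show off κ m + b.1 + 1 < off κ (m + 1)
      omega

theorem inn_length (κ : ℕ → ℕ) (g : ℕ → Word) (m : ℕ) :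
    (inn κ g m).length = ∑ j ∈ Finset.range m, (g j).length := by
  induction m with
  | zero => rfl
  | succ m ih =>
    show (inn κ g m ++ shift (off κ m) (g m)).length = _
    rw [List.length_append, ih, Finset.sum_range_succ]
    unfold shift
    rw [List.length_map]

theorem inn_hom {κ : ℕ → ℕ} {g g' : ℕ → Word} {m : ℕ} (hg : ∀ j < m, IsWord (κ j) (g j))
    (hg' : ∀ j < m, IsWord (κ j) (g' j)) (h : ∀ j < m, val (κ j) (g j) = val (κ j) (g' j)) :
    val (off κ m) (inn κ g m) = val (off κ m) (inn κ g' m) := by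
  exact inn_hom' _ m le_rfl hg hg' h

theorem del_inn_trv {κ : ℕ → ℕ} {g : ℕ → Word} {m : ℕ} {T : Finset ℕ} (hT : Trv κ m T)
    (hg : ∀ j < m, IsWord (κ j) (g j)) :
    del T (inn κ g m) = [] ∧ Trv κ m (fin T (inn κ g m)) := by
  obtain ⟨hT1, hT2⟩ := hT
  refine ⟨?_, fin_subset (inn_isWord hg) hT1, fun j hj => ?_⟩
  · have key : ∀ l ≤ m, del T (inn κ g l) = [] := by
      intro l
      induction l with
      | zero =>
        intro _
        rfl
      | succ l ih =>
        intro hl
        show del T (inn κ g l ++ shift (off κ l) (g l)) = []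
        rw [del_append, ih (by omega), del_cnt_le (hg l (by omega)), List.append_nil]
        rw [cnt_fin_inn l (fun i hi => hg i (by omega)), hT2 l (by omega)]
    exact key m le_rfl
  · rw [cnt_fin_inn m hg, hT2 j hj]

theorem del_inn_iv {κ : ℕ → ℕ} {g : ℕ → Word} {m j : ℕ} (hj : j < m)
    (hg : ∀ j < m, IsWord (κ j) (g j)) :
    del (iv κ j) (inn κ g m) = g j ∧ fin (iv κ j) (inn κ g m) = iv κ j := by
  obtain ⟨h1, h2⟩ := del_inn_iv' m j hg
  rw [if_pos hj] at h1
  exact ⟨h1, h2⟩

end Pool.Agent.Work.MP_64e010_lc
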