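import Pool.Agent.Work.MP_64e010_lc.Br.DelHom

/-!
# Br/Local (M): the local principle

`sum_del`: induction on `w`. For `a :: w`: the sum over the `k`-subsets `S` of `range n` of `[a.1, a.1 + 1 ∈ S]` is `(n - 2).choose (k - 2)` (the map `S ↦ S \ {a.1, a.1 + 1}` onto the `(k - 2)`-subsets of `range n \ {a.1, a.1 + 1}`), and `S ↦ sws a.1 S` is a permutation of the `k`-subsets of
`range n` (`Finset.sum_bij`/`sum_nbij'`, `card_sws`, `sws_subset`, `sws_sws`).
`local_min`: let `w'` be a word with the same value. By `del_hom` (`k = S.card`) `del S w'` and `del S w` have the same value in `B k`, and `del S w'` is a word on `k` strands (`del_isWord`), so `(del S w).length ≤ (del S w').length`; sum over `S` and cancel the positive number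
`(n - 2).choose (k - 2)` (`k - 2 ≤ n - 2`).
-/

set_option autoImplicit false

namespace Pool.Agent.Work.MP_64e010_lc

private theorem mem_sws_self' {i : ℕ} {S : Finset ℕ} : i ∈ sws i S ↔ i + 1 ∈ S := by
  rw [mem_sws]
  change Equiv.swap i (i + 1) i ∈ S ↔ _
  rw [Equiv.swap_apply_left]

private theorem mem_sws_succ' {i : ℕ} {S : Finset ℕ} : i + 1 ∈ sws i S ↔ i ∈ S := by
  rw [mem_sws]
  change Equiv.swap i (i + 1) (i + 1) ∈ S ↔ _
  rw [Equiv.swap_apply_right]

/-- the number of `k`-subsets of `range n` which contain two given elements -/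
private theorem card_pair {n k i : ℕ} (hk : 2 ≤ k) (hi : i + 1 < n) :
    ((((Finset.range n).powersetCard k).filter fun S => i ∈ S ∧ i + 1 ∈ S)).card =
      (n - 2).choose (k - 2) := by
  have hne : i ≠ i + 1 := by omega
  have h1 : (((Finset.range n).erase i).erase (i + 1)).card = n - 2 := by
    rw [Finset.card_erase_of_mem, Finset.card_erase_of_mem, Finset.card_range]
    · omega
    · exact Finset.mem_range.2 (by omega)
    · exact Finset.mem_erase.2 ⟨by omega, Finset.mem_range.2 hi⟩
  rw [← h1, ← Finset.card_powersetCard]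
  refine Finset.card_bij' (fun S _ => (S.erase i).erase (i + 1))
    (fun S _ => insert i (insert (i + 1) S)) ?_ ?_ ?_ ?_
  · intro S hS
    rw [Finset.mem_filter, Finset.mem_powersetCard] at hS
    obtain ⟨⟨h2, h3⟩, h4, h5⟩ := hS
    rw [Finset.mem_powersetCard]
    refine ⟨Finset.erase_subset_erase _ (Finset.erase_subset_erase _ h2), ?_⟩
    rw [Finset.card_erase_of_mem (Finset.mem_erase.2 ⟨by omega, h5⟩),
      Finset.card_erase_of_mem h4, h3]
    omega
  · intro S hS
    rw [Finset.mem_powersetCard] at hS
    obtain ⟨h2, h3⟩ := hS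
    have h4 : i + 1 ∉ S := fun h => absurd (h2 h) (Finset.notMem_erase _ _)
    have h5 : i ∉ insert (i + 1) S := by
      intro h
      rw [Finset.mem_insert] at h
      rcases h with h | h
      · omega
      · exact absurd (Finset.mem_of_mem_erase (h2 h)) (Finset.notMem_erase _ _)
    rw [Finset.mem_filter, Finset.mem_powersetCard]
    refine ⟨⟨?_, ?_⟩, Finset.mem_insert_self _ _, ?_⟩
    · intro x hx
      rw [Finset.mem_insert, Finset.mem_insert] at hx
      rcases hx with rfl | rfl | hx
      · exact Finset.mem_range.2 (by omega)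
      · exact Finset.mem_range.2 hi
      · exact Finset.mem_of_mem_erase (Finset.mem_of_mem_erase (h2 hx))
    · rw [Finset.card_insert_of_notMem h5, Finset.card_insert_of_notMem h4, h3]
      omega
    · exact Finset.mem_insert_of_mem (Finset.mem_insert_self _ _)
  · intro S hS
    rw [Finset.mem_filter] at hS
    obtain ⟨-, h4, h5⟩ := hS
    change insert i (insert (i + 1) ((S.erase i).erase (i + 1))) = S
    rw [Finset.insert_erase (Finset.mem_erase.2 ⟨by omega, h5⟩), Finset.insert_erase h4]
  · intro S hS
    rw [Finset.mem_powersetCard] at hS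
    obtain ⟨h2, h3⟩ := hS
    have h4 : i + 1 ∉ S := fun h => absurd (h2 h) (Finset.notMem_erase _ _)
    have h5 : i ∉ insert (i + 1) S := by
      intro h
      rw [Finset.mem_insert] at h
      rcases h with h | h
      · omega
      · exact absurd (Finset.mem_of_mem_erase (h2 h)) (Finset.notMem_erase _ _)
    change ((insert i (insert (i + 1) S)).erase i).erase (i + 1) = S
    rw [Finset.erase_insert h5, Finset.erase_insert h4]

theorem sum_del {n k : ℕ} (hk : 2 ≤ k) (w : Word) (hw : IsWord n w) :
    ∑ S ∈ (Finset.range n).powersetCard k, (del S w).length =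
      (n - 2).choose (k - 2) * w.length := by
  induction w with
  | nil =>
    rw [List.length_nil, mul_zero]
    exact Finset.sum_eq_zero fun S _ => rfl
  | cons a w ih =>
    have ha : a.1 + 1 < n := hw a List.mem_cons_self
    have hw' : IsWord n w := fun x hx => hw x (List.mem_cons_of_mem _ hx)
    have h1 : ∀ S ∈ (Finset.range n).powersetCard k, (del S (a :: w)).length =
        (if a.1 ∈ S ∧ a.1 + 1 ∈ S then 1 else 0) + (del (sws a.1 S) w).length := by
      intro S _
      rw [del, List.length_append]
      by_cases h : a.1 ∈ S ∧ a.1 + 1 ∈ S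
      · rw [if_pos h, if_pos h, List.length_singleton]
      · rw [if_neg h, if_neg h, List.length_nil]
    rw [Finset.sum_congr rfl h1, Finset.sum_add_distrib]
    have h2 : ∑ S ∈ (Finset.range n).powersetCard k, (del (sws a.1 S) w).length =
        ∑ S ∈ (Finset.range n).powersetCard k, (del S w).length := by
      refine Finset.sum_nbij' (sws a.1) (sws a.1) ?_ ?_ ?_ ?_ ?_
      · intro S hS
        rw [Finset.mem_powersetCard] at hS ⊢
        exact ⟨sws_subset ha hS.1, by rw [card_sws]; exact hS.2⟩
      · intro S hS
        rw [Finset.mem_powersetCard] at hS ⊢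
        exact ⟨sws_subset ha hS.1, by rw [card_sws]; exact hS.2⟩
      · intro S _
        exact sws_sws _ _
      · intro S _
        exact sws_sws _ _
      · intro S _
        rfl
    have h3 : ∑ S ∈ (Finset.range n).powersetCard k,
        (if a.1 ∈ S ∧ a.1 + 1 ∈ S then 1 else 0) = (n - 2).choose (k - 2) := by
      rw [← Finset.card_filter, card_pair hk ha]
    rw [h2, h3, ih hw', List.length_cons]
    ring

/-- a braid word on `n` strands, all of whose `k`-strand subwords are minimal, is minimal -/
theorem local_min {n k : ℕ} (hk : 2 ≤ k) (hkn : k ≤ n) (w : Word) (hw : IsWord n w)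
    (h : ∀ S ⊆ Finset.range n, S.card = k → Minimal k (del S w)) : Minimal n w := by
  intro w' hw' hv
  have h1 : ∑ S ∈ (Finset.range n).powersetCard k, (del S w).length ≤
      ∑ S ∈ (Finset.range n).powersetCard k, (del S w').length := by
    refine Finset.sum_le_sum fun S hS => ?_
    rw [Finset.mem_powersetCard] at hS
    refine h S hS.1 hS.2 (del S w') ?_ ?_
    · have := del_isWord S w'
      rwa [hS.2] at this
    · exact (del_hom n k hw' hw hv S hS.2.le).1
  rw [sum_del hk w hw, sum_del hk w' hw'] at h1
  exact Nat.le_of_mul_le_mul_left h1 (Nat.choose_pos (by omega))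

end Pool.Agent.Work.MP_64e010_lc
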