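import Pool.Agent.Work.MP_64e010_lc.Br.DelB

/-!
# Br/WDel (M): the weighted length of a subword

Induction on `w` for all `κ`, `c`, `T` (`T.card` is not changed by `sws`). Write `N T r = Nat.nth (· ∈ T) r` for the `r`-th element of `T` (`r < T.card`; `N T (rank T x) = x` for `x ∈ T` by `nth_rank`, `rank T` is injective on `T`, and every `r < T.card` is `rank T x` for some `x ∈ T`, e.g. by `Nat.nth_mem`, `Nat.count_nth`).
Let `a = (i, ε)` be the first letter. If `i ∈ T` and `i + 1 ∈ T`: `r = rank T i`, `rank T (i+1) = r + 1`, `r + 1 < T.card`, so `κ r * κ (r+1) = k (c i) * k (c (i+1))`; `sws i T = T`, and the hypothesis holds for `κ ∘ tr r`, `c ∘ tr i`, `T`: for `s < T.card`, `x = N T s`: if `s = r` then `x = i`, `κ (r+1) = k (c (i+1))`, same for `s = r + 1`, and otherwise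
`x ≠ i, i+1`. If at most one of `i, i+1` is in `T`: no letter is written, and for `x ∈ T` one has `rank (sws i T) (tr i x) = rank T x`, so the elements `N (sws i T) s = tr i (N T s)` and `(c ∘ tr i) (N (sws i T) s) = c (N T s)`: the hypothesis holds for `κ`, `c ∘ tr i`, `sws i T`.
(It is convenient to use the hypothesis in the form `∀ x ∈ T, κ (rank T x) = k (c x)`, which is `wcost_del'`; `wcost_del` is only needed in this form.)
-/

set_option autoImplicit false

namespace Pool.Agent.Work.MP_64e010_lc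

private theorem rank_tr {i : ℕ} {T : Finset ℕ} (hT : ¬(i ∈ T ∧ i + 1 ∈ T)) {x : ℕ}
    (hx : tr i x ∈ T) : rank (sws i T) x = rank T (tr i x) := by
  rcases lt_trichotomy x i with h | rfl | h
  · rw [Equiv.swap_apply_of_ne_of_ne (by omega) (by omega), rank_sws_le (by omega)]
  · rw [Equiv.swap_apply_left] at hx ⊢
    rw [rank_sws_le le_rfl, rank_succ, if_neg fun h => hT ⟨h, hx⟩, add_zero]
  · rcases eq_or_ne x (i + 1) with rfl | h2
    · rw [Equiv.swap_apply_right] at hx ⊢
      have h3 : i ∉ sws i T := by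
        intro h4
        rw [mem_sws, Equiv.swap_apply_left] at h4
        exact hT ⟨hx, h4⟩
      rw [rank_succ, if_neg h3, add_zero, rank_sws_le le_rfl]
    · rw [Equiv.swap_apply_of_ne_of_ne (by omega) (by omega), rank_sws_ge (by omega)]

theorem wcost_del' {k : ℕ → ℕ} (w : Word) (κ c : ℕ → ℕ) (T : Finset ℕ)
    (h : ∀ x ∈ T, κ (rank T x) = k (c x)) : wcost κ (del T w) = dcost k c T w := by
  induction w generalizing κ c T with
  | nil => rfl
  | cons a w ih =>
    show wcost κ ((if a.1 ∈ T ∧ a.1 + 1 ∈ T then [(rank T a.1, a.2)] else []) ++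
      del (sws a.1 T) w) = (if a.1 ∈ T ∧ a.1 + 1 ∈ T then k (c a.1) * k (c (a.1 + 1)) else 0) +
      dcost k (c ∘ tr a.1) (sws a.1 T) w
    by_cases hT : a.1 ∈ T ∧ a.1 + 1 ∈ T
    · obtain ⟨h1, h2⟩ := hT
      have h3 : sws a.1 T = T := sws_eq_self ⟨fun _ => h2, fun _ => h1⟩
      have h4 : rank T (a.1 + 1) = rank T a.1 + 1 := by rw [rank_succ, if_pos h1]
      have h5 : rank T (a.1 + 1 + 1) = rank T a.1 + 1 + 1 := by rw [rank_succ, if_pos h2, h4]
      rw [if_pos ⟨h1, h2⟩, if_pos ⟨h1, h2⟩, h3]
      show κ (rank T a.1) * κ (rank T a.1 + 1) + wcost (κ ∘ tr (rank T a.1)) (del T w) = _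
      rw [h _ h1, ← h4, h _ h2, ih (κ ∘ tr (rank T a.1)) (c ∘ tr a.1) T]
      intro x hx
      rcases lt_trichotomy x a.1 with h6 | rfl | h6
      · have h7 : rank T (x + 1) ≤ rank T a.1 := rank_mono T (by omega)
        rw [rank_succ, if_pos hx] at h7
        show κ (tr (rank T a.1) (rank T x)) = k (c (tr a.1 x))
        rw [Equiv.swap_apply_of_ne_of_ne (by omega) (by omega),
          Equiv.swap_apply_of_ne_of_ne (by omega) (by omega)]
        exact h x hx
      · show κ (tr (rank T a.1) (rank T a.1)) = k (c (tr a.1 a.1))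
        rw [Equiv.swap_apply_left, Equiv.swap_apply_left, ← h4]
        exact h _ h2
      · rcases eq_or_ne x (a.1 + 1) with rfl | h7
        · show κ (tr (rank T a.1) (rank T (a.1 + 1))) = k (c (tr a.1 (a.1 + 1)))
          rw [h4, Equiv.swap_apply_right, Equiv.swap_apply_right]
          exact h _ h1
        · have h8 : rank T (a.1 + 1 + 1) ≤ rank T x := rank_mono T (by omega)
          rw [h5] at h8
          show κ (tr (rank T a.1) (rank T x)) = k (c (tr a.1 x))
          rw [Equiv.swap_apply_of_ne_of_ne (by omega) (by omega),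
            Equiv.swap_apply_of_ne_of_ne (by omega) (by omega)]
          exact h x hx
    · rw [if_neg hT, if_neg hT, List.nil_append, zero_add]
      refine ih κ (c ∘ tr a.1) (sws a.1 T) fun x hx => ?_
      rw [mem_sws] at hx
      rw [rank_tr hT hx]
      exact h _ hx

end Pool.Agent.Work.MP_64e010_lc
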