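import Pool.Agent.Work.MP_64e010_lc.Br.DelHom
import Pool.Agent.Work.MP_64e010_lc.Br.DelCab
import Pool.Agent.Work.MP_64e010_lc.Br.DelInn
import Pool.Agent.Work.MP_64e010_lc.Br.Avg
import Pool.Agent.Work.MP_64e010_lc.Br.WDel
import Pool.Agent.Work.MP_64e010_lc.Br.Col

/-!
# Br/Main (M): assembly

`n = off κ m`, `V = inn κ g m ++ cab κ w`. By `exists_le` (`c = c0 κ m`, `k = κ`; `fib_c0`, `(iv κ j).card = κ j`) there is `T ∈ Trc n m c` with `dcost κ c T W ≤ inter c W`. Put `w' = del T W`. `T.card = m` (`trc_trv`), so `w'` is a word on `m` strands, and by `del_hom` `val m w' = val m (del T V) = val m w`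
(`del_append`, `del_inn_trv`, `del_cab`). `wcost κ w' = dcost κ c T W` (`wcost_del'` and `rank_c0`: `κ (rank T x) = κ (c x)`). Put `g' j = del (iv κ j) W` for `j < m` (`(iv κ j).card = κ j`, `del_isWord`), `val (κ j) (g' j) = val (κ j) (del (iv κ j) V) = val (κ j) (g j)` (`del_inn_iv`, `del_cab_iv`), and `(g' j).length = intra j c W` (`fib_c0`, `intra_del`).
`inter_add_intra` gives the inequality. The other statements: `inn_length`, `cab_length`, `inn_isWord`, `cab_isWord`, `inn_hom`, `cab_hom`, `val_append`.
-/

set_option autoImplicit false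

namespace Pool.Agent.Work.MP_64e010_lc

/-- every word which represents a cabled braid can be replaced by a cabled word which is not longer -/
theorem cabled {m : ℕ} {κ : ℕ → ℕ} (hκ : ∀ j < m, 1 ≤ κ j) {w : Word} (hw : IsWord m w)
    {g : ℕ → Word} (hg : ∀ j < m, IsWord (κ j) (g j)) {W : Word} (hW : IsWord (off κ m) W)
    (h : val (off κ m) W = val (off κ m) (inn κ g m ++ cab κ w)) :
    ∃ (w' : Word) (g' : ℕ → Word), IsWord m w' ∧ val m w' = val m w ∧
      (∀ j < m, IsWord (κ j) (g' j) ∧ val (κ j) (g' j) = val (κ j) (g j)) ∧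
      IsWord (off κ m) (inn κ g' m ++ cab κ w') ∧
      val (off κ m) (inn κ g' m ++ cab κ w') = val (off κ m) W ∧
      (inn κ g' m ++ cab κ w').length = wcost κ w' + ∑ j ∈ Finset.range m, (g' j).length ∧
      (inn κ g' m ++ cab κ w').length ≤ W.length := by
  classical
  obtain ⟨V, hVd⟩ : ∃ V, V = inn κ g m ++ cab κ w := ⟨_, rfl⟩
  rw [← hVd] at h
  have hV : IsWord (off κ m) V := by
    rw [hVd]
    exact isWord_append.2 ⟨inn_isWord hg, cab_isWord κ hw⟩
  have hivc : ∀ j, (iv κ j).card = κ j := by
    intro j
    unfold iv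
    rw [Nat.card_Ico, off_succ]
    omega
  have hN : ∀ j < m, (fib (off κ m) (c0 κ m) j).card = κ j := by
    intro j hj
    rw [fib_c0 hj, hivc]
  obtain ⟨T, hT, hle⟩ := exists_le (k := κ) W hW (c0 κ m) (fun x hx => c0_lt hx) hN hκ
  obtain ⟨hTv, hTc⟩ := trc_trv hT
  have hdT := del_hom (off κ m) m hW hV h T hTc.le
  have hdV : del T V = w := by
    rw [hVd, del_append, (del_inn_trv hTv hg).1, List.nil_append]
    exact del_cab (del_inn_trv hTv hg).2 hw
  have hcost : wcost κ (del T W) = dcost κ (c0 κ m) T W :=
    wcost_del' W κ (c0 κ m) T (fun x hx => by rw [rank_c0 hT hx])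
  have hw1 : IsWord m (del T W) := by
    have := del_isWord T W
    rwa [hTc] at this
  have hw2 : val m (del T W) = val m w := by rw [hdT.1, hdV]
  have hgj : ∀ j < m, IsWord (κ j) (del (iv κ j) W) ∧
      val (κ j) (del (iv κ j) W) = val (κ j) (g j) := by
    intro j hj
    constructor
    · have := del_isWord (iv κ j) W
      rwa [hivc] at this
    · have h1 := (del_hom (off κ m) (κ j) hW hV h (iv κ j) (hivc j).le).1
      rw [h1, hVd, del_append, (del_inn_iv hj hg).1, (del_inn_iv hj hg).2, del_cab_iv hj hw,
        List.append_nil]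
  have hlen : ∀ j < m, (del (iv κ j) W).length = intra j (c0 κ m) W := by
    intro j hj
    rw [← fib_c0 hj]
    exact intra_del j W hW (c0 κ m)
  have htot := inter_add_intra W hW (c0 κ m) (m := m) (fun x hx => c0_lt hx)
  have hsum : ∑ j ∈ Finset.range m, (del (iv κ j) W).length =
      ∑ j ∈ Finset.range m, intra j (c0 κ m) W :=
    Finset.sum_congr rfl fun j hj => hlen j (Finset.mem_range.1 hj)
  have hL : (inn κ (fun j => del (iv κ j) W) m ++ cab κ (del T W)).length =
      wcost κ (del T W) + ∑ j ∈ Finset.range m, (del (iv κ j) W).length := by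
    rw [List.length_append, inn_length, cab_length, add_comm]
  refine ⟨del T W, fun j => del (iv κ j) W, hw1, hw2, hgj, ?_, ?_, hL, ?_⟩
  · exact isWord_append.2 ⟨inn_isWord fun j hj => (hgj j hj).1, cab_isWord κ hw1⟩
  · rw [val_append, h, hVd, val_append, cab_hom m κ hw1 hw hw2,
      inn_hom (fun j hj => (hgj j hj).1) hg (fun j hj => (hgj j hj).2)]
  · rw [hL, hcost, hsum]
    omega

/-- minimality of a cabled word -/
theorem minimal_iff {m : ℕ} {κ : ℕ → ℕ} (hκ : ∀ j < m, 1 ≤ κ j) {w : Word} (hw : IsWord m w)
    {g : ℕ → Word} (hg : ∀ j < m, IsWord (κ j) (g j)) :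
    Minimal (off κ m) (inn κ g m ++ cab κ w) ↔
      WMinimal m κ w ∧ ∀ j < m, Minimal (κ j) (g j) := by
  classical
  have hVw : ∀ {g' : ℕ → Word} {w' : Word}, (∀ j < m, IsWord (κ j) (g' j)) → IsWord m w' →
      IsWord (off κ m) (inn κ g' m ++ cab κ w') := fun hg' hw' =>
    isWord_append.2 ⟨inn_isWord hg', cab_isWord κ hw'⟩
  have hVl : ∀ (g' : ℕ → Word) (w' : Word), (inn κ g' m ++ cab κ w').length =
      wcost κ w' + ∑ j ∈ Finset.range m, (g' j).length := by
    intro g' w'
    rw [List.length_append, inn_length, cab_length, add_comm]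
  constructor
  · intro hM
    constructor
    · intro w2 hw2 hval
      have h1 := hM (inn κ g m ++ cab κ w2) (hVw hg hw2)
        (by rw [val_append, val_append, cab_hom m κ hw2 hw hval])
      rw [hVl, hVl] at h1
      omega
    · intro j hj u hu hval
      have hgu : ∀ i < m, IsWord (κ i) (Function.update g j u i) := by
        intro i hi
        rcases eq_or_ne i j with rfl | hij
        · rw [Function.update_self]
          exact hu
        · rw [Function.update_of_ne hij]
          exact hg i hi
      have h1 := hM (inn κ (Function.update g j u) m ++ cab κ w) (hVw hgu hw)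
        (by
          rw [val_append, val_append]
          congr 1
          refine inn_hom hgu hg fun i hi => ?_
          rcases eq_or_ne i j with rfl | hij
          · rw [Function.update_self]
            exact hval
          · rw [Function.update_of_ne hij])
      rw [hVl, hVl] at h1
      have hjm : j ∈ Finset.range m := Finset.mem_range.2 hj
      rw [← Finset.add_sum_erase _ _ hjm, ← Finset.add_sum_erase _ (fun i => (Function.update g j u i).length) hjm,
        Function.update_self] at h1
      have h2 : ∑ i ∈ (Finset.range m).erase j, (Function.update g j u i).length =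
          ∑ i ∈ (Finset.range m).erase j, (g i).length := by
        refine Finset.sum_congr rfl fun i hi => ?_
        rw [Function.update_of_ne (Finset.ne_of_mem_erase hi)]
      rw [h2] at h1
      omega
  · rintro ⟨hM, hMg⟩ W hW hval
    obtain ⟨w', g', hw', hvw', hg', -, -, hL, hle⟩ := cabled hκ hw hg hW hval
    rw [hL] at hle
    rw [hVl]
    have h1 := hM w' hw' hvw'
    have h2 : ∑ j ∈ Finset.range m, (g j).length ≤ ∑ j ∈ Finset.range m, (g' j).length :=
      Finset.sum_le_sum fun j hj => by
        have hj' := Finset.mem_range.1 hj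
        exact hMg j hj' (g' j) (hg' j hj').1 (hg' j hj').2
    omega

/-- parallel cables of the same width -/
theorem gap {m k : ℕ} (hk : 1 ≤ k) {w : Word} (hw : IsWord m w) :
    (Minimal m w ↔ Minimal (m * k) (cab (fun _ => k) w)) ∧
    (¬ Minimal m w → ∃ W, IsWord (m * k) W ∧ val (m * k) W = val (m * k) (cab (fun _ => k) w) ∧
      W.length + 2 * k ^ 2 ≤ (cab (fun _ => k) w).length) := by
  have hoff : off (fun _ => k) m = m * k := by
    unfold off
    rw [Finset.sum_const, Finset.card_range, smul_eq_mul]
  have hwc : ∀ u : Word, wcost (fun _ => k) u = k ^ 2 * u.length := by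
    intro u
    induction u with
    | nil => rfl
    | cons a u ih =>
      have e : ((fun _ => k) ∘ tr a.1 : ℕ → ℕ) = fun _ => k := rfl
      show k * k + wcost ((fun _ => k) ∘ tr a.1) u = _
      rw [e, ih, List.length_cons]
      ring
  have hinn : ∀ j : ℕ, inn (fun _ => k) (fun _ => []) j = [] := by
    intro j
    induction j with
    | zero => rfl
    | succ j ih =>
      show inn (fun _ => k) (fun _ => []) j ++ shift _ [] = []
      rw [ih]
      rfl
  have hmin := minimal_iff (m := m) (κ := fun _ => k) (fun _ _ => hk) hw (g := fun _ => [])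
    (fun j _ a ha => absurd ha List.not_mem_nil)
  rw [hinn, List.nil_append, hoff] at hmin
  have hk2 : 0 < k ^ 2 := by positivity
  have hWM : WMinimal m (fun _ => k) w ↔ Minimal m w := by
    constructor
    · intro h w' hw' hval
      have := h w' hw' hval
      rw [hwc, hwc] at this
      exact Nat.le_of_mul_le_mul_left this hk2
    · intro h w' hw' hval
      rw [hwc, hwc]
      exact Nat.mul_le_mul_left _ (h w' hw' hval)
  constructor
  · rw [hmin, hWM]
    constructor
    · intro h
      exact ⟨h, fun j _ w' _ _ => Nat.zero_le _⟩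
    · exact fun h => h.1
  · intro hno
    unfold Minimal at hno
    push Not at hno
    obtain ⟨w', hw', hval, hlt⟩ := hno
    refine ⟨cab (fun _ => k) w', ?_, ?_, ?_⟩
    · rw [← hoff]
      exact cab_isWord _ hw'
    · rw [← hoff]
      exact cab_hom m _ hw' hw hval
    · rw [cab_length, cab_length, hwc, hwc]
      have h2 := even_of_val hw' hw hval
      have h3 : w'.length + 2 ≤ w.length := by
        obtain ⟨r, hr⟩ := h2
        omega
      calc k ^ 2 * w'.length + 2 * k ^ 2 = k ^ 2 * (w'.length + 2) := by ring
        _ ≤ k ^ 2 * w.length := Nat.mul_le_mul_left _ h3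

end Pool.Agent.Work.MP_64e010_lc
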