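import Pool.Agent.Work.MP_64e010_lc.Br.Defs

/-!
# Br/Sw (S-M): transpositions acting on sets of positions, ranks

`mem_sws`: `Finset.mem_map_equiv` (`(tr i).symm = tr i`). `sws_comm`, `sws_braid`: ext, `mem_sws`, the identities of the transpositions (case distinction, or `Equiv.swap` lemmas; e.g. `decide`-free: `simp [Equiv.swap_apply_def]; split_ifs; omega`).
`rank_sws_le`: for `x < j ≤ i` one has `tr i x = x`. `rank_sws_ge`: `tr i` is a bijection of the elements `< j` if `i + 2 ≤ j` (`Finset.card_bij` or `card_map`). `rank_add_two_le`: the elements `< i`, `i` and `i + 1` are all different elements of `S`.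
`nth`: `Nat.count` of the predicate `· ∈ S` is `rank S` (`Nat.count_eq_card_filter_range`), `Nat.nth_count`.
-/

set_option autoImplicit false

namespace Pool.Agent.Work.MP_64e010_lc

theorem mem_sws {i x : ℕ} {S : Finset ℕ} : x ∈ sws i S ↔ tr i x ∈ S := by
  unfold sws
  rw [Finset.mem_map_equiv, Equiv.symm_swap]

theorem card_sws (i : ℕ) (S : Finset ℕ) : (sws i S).card = S.card := by
  unfold sws
  exact Finset.card_map _

theorem sws_sws (i : ℕ) (S : Finset ℕ) : sws i (sws i S) = S := by
  ext x
  rw [mem_sws, mem_sws, Equiv.swap_apply_self]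

theorem sws_comm {i j : ℕ} (h : i + 2 ≤ j) (S : Finset ℕ) : sws i (sws j S) = sws j (sws i S) := by
  ext x
  rw [mem_sws, mem_sws, mem_sws, mem_sws]
  have : tr j (tr i x) = tr i (tr j x) := by
    simp only [Equiv.swap_apply_def]
    split_ifs <;> omega
  rw [this]

theorem sws_braid (i : ℕ) (S : Finset ℕ) :
    sws i (sws (i + 1) (sws i S)) = sws (i + 1) (sws i (sws (i + 1) S)) := by
  ext x
  rw [mem_sws, mem_sws, mem_sws, mem_sws, mem_sws, mem_sws]
  have : tr i (tr (i + 1) (tr i x)) = tr (i + 1) (tr i (tr (i + 1) x)) := by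
    simp only [Equiv.swap_apply_def]
    split_ifs <;> omega
  rw [this]

theorem sws_eq_self {i : ℕ} {S : Finset ℕ} (h : i ∈ S ↔ i + 1 ∈ S) : sws i S = S := by
  ext x
  rw [mem_sws]
  rcases eq_or_ne x i with rfl | h1
  · rw [Equiv.swap_apply_left]
    exact h.symm
  · rcases eq_or_ne x (i + 1) with rfl | h2
    · rw [Equiv.swap_apply_right]
      exact h
    · rw [Equiv.swap_apply_of_ne_of_ne h1 h2]

theorem sws_subset {n i : ℕ} {S : Finset ℕ} (hi : i + 1 < n) (h : S ⊆ Finset.range n) :
    sws i S ⊆ Finset.range n := by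
  intro x hx
  rw [mem_sws] at hx
  have h1 := Finset.mem_range.1 (h hx)
  rw [Finset.mem_range]
  rcases eq_or_ne x i with rfl | h2
  · omega
  · rcases eq_or_ne x (i + 1) with rfl | h3
    · exact hi
    · rwa [Equiv.swap_apply_of_ne_of_ne h2 h3] at h1

theorem rank_sws_le {i j : ℕ} (h : j ≤ i) (S : Finset ℕ) : rank (sws i S) j = rank S j := by
  unfold rank
  congr 1
  ext x
  rw [Finset.mem_filter, Finset.mem_filter, mem_sws]
  constructor
  · rintro ⟨h1, h2⟩
    rw [Equiv.swap_apply_of_ne_of_ne (by omega) (by omega)] at h1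
    exact ⟨h1, h2⟩
  · rintro ⟨h1, h2⟩
    rw [Equiv.swap_apply_of_ne_of_ne (by omega) (by omega)]
    exact ⟨h1, h2⟩

theorem rank_sws_ge {i j : ℕ} (h : i + 2 ≤ j) (S : Finset ℕ) : rank (sws i S) j = rank S j := by
  unfold rank
  have h1 : (sws i S).filter (· < j) = sws i (S.filter (· < j)) := by
    ext x
    rw [Finset.mem_filter, mem_sws, mem_sws, Finset.mem_filter]
    have h2 : x < j ↔ tr i x < j := by
      simp only [Equiv.swap_apply_def]
      split_ifs <;> omega
    rw [h2]
  rw [h1, card_sws]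

theorem rank_succ (S : Finset ℕ) (j : ℕ) : rank S (j + 1) = rank S j + if j ∈ S then 1 else 0 := by
  unfold rank
  have h1 : S.filter (· < j + 1) = S.filter (· < j) ∪ (if j ∈ S then {j} else ∅) := by
    ext x
    rw [Finset.mem_union, Finset.mem_filter, Finset.mem_filter]
    by_cases hj : j ∈ S
    · rw [if_pos hj, Finset.mem_singleton]
      constructor
      · rintro ⟨h1, h2⟩
        rcases eq_or_ne x j with h3 | h3
        · exact Or.inr h3
        · exact Or.inl ⟨h1, by omega⟩
      · rintro (⟨h1, h2⟩ | rfl)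
        · exact ⟨h1, by omega⟩
        · exact ⟨hj, by omega⟩
    · rw [if_neg hj]
      constructor
      · rintro ⟨h1, h2⟩
        refine Or.inl ⟨h1, ?_⟩
        have : x ≠ j := fun h => hj (h ▸ h1)
        omega
      · rintro (⟨h1, h2⟩ | h)
        · exact ⟨h1, by omega⟩
        · exact absurd h (Finset.notMem_empty x)
  rw [h1, Finset.card_union_of_disjoint]
  · congr 1
    split_ifs
    · exact Finset.card_singleton _
    · rfl
  · rw [Finset.disjoint_left]
    intro x hx hx'
    rw [Finset.mem_filter] at hx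
    by_cases hj : j ∈ S
    · rw [if_pos hj, Finset.mem_singleton] at hx'
      omega
    · rw [if_neg hj] at hx'
      exact Finset.notMem_empty x hx'

theorem rank_mono (S : Finset ℕ) {i j : ℕ} (h : i ≤ j) : rank S i ≤ rank S j := by
  unfold rank
  refine Finset.card_le_card fun x hx => ?_
  rw [Finset.mem_filter] at hx ⊢
  exact ⟨hx.1, by omega⟩

theorem rank_lt {S : Finset ℕ} {i : ℕ} (h : i ∈ S) : rank S i < S.card := by
  have h1 := rank_succ S i
  rw [if_pos h] at h1
  have h2 : rank S (i + 1) ≤ S.card := Finset.card_filter_le _ _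
  omega

theorem rank_add_two_le {S : Finset ℕ} {i : ℕ} (h : i ∈ S) (h' : i + 1 ∈ S) :
    rank S i + 2 ≤ S.card := by
  have h1 := rank_succ S i
  have h2 := rank_succ S (i + 1)
  rw [if_pos h] at h1
  rw [if_pos h'] at h2
  have h3 : rank S (i + 1 + 1) ≤ S.card := Finset.card_filter_le _ _
  omega

theorem nth_rank {S : Finset ℕ} {i : ℕ} (h : i ∈ S) : Nat.nth (fun x => x ∈ S) (rank S i) = i := by
  have h1 : rank S i = Nat.count (fun x => x ∈ S) i := by
    rw [Nat.count_eq_card_filter_range]
    unfold rank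
    congr 1
    ext x
    rw [Finset.mem_filter, Finset.mem_filter, Finset.mem_range, and_comm]
  rw [h1]
  exact Nat.nth_count h

end Pool.Agent.Work.MP_64e010_lc
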